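import Pool.Agent.Run7.h219.HP.End4

/-!
The end value of a very weak solution (piece End), part 5: assembly.
-/

set_option autoImplicit false

open MeasureTheory Set Filter Topology
open scoped ContDiff ENNReal ComplexConjugate

namespace Pool.Agent.Run7.h219.HP

open H459R3.NS Pool.Agent.Run7.h782 Pool.Agent.Run7.h782.GD Pool.Agent.Run7.h782.GS
open Pool.Agent.Run7.h782.WS Pool.Agent.Run7.h782.WQ Pool.Agent.Run7.h744.WS
open Pool.Agent.Run7.h969.WS Pool.Agent.Run7.h219.OS Pool.Agent.Run7.h969.HP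
open Pool.Agent.Run7.h782.OS Run7.h475.WS
open Pool.Agent.Run7.h219.WQ (mu int_u int_uu int_cont_mul Ak Bk Bt Mk hk gc exists_cut2 cont_reS
  per_reS anti_comm' fub Mk_comm fr_add' fr_smul' fr_reS anti_herm' Bt_herm memLp_cube inB)

variable {ν T : ℝ} {c : Cf} {v : ℝ → V → V}

/-- The reflected solution is in the same spaces. -/
theorem rev_lq {q : ℝ} (h : InLq T v q) : InLq T (rev T v) q := by
  have h1 : MeasurePreserving (fun t : ℝ => T - t) (volume.restrict (Ioo 0 T))
      (volume.restrict (Ioo 0 T)) := by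
    have e : Ioo 0 T = (fun t : ℝ => T - t) ⁻¹' Ioo 0 T := by
      ext t
      simp only [mem_preimage, mem_Ioo, sub_pos, sub_lt_self_iff]
      tauto
    have h2 := (Measure.measurePreserving_sub_left (volume : Measure ℝ) T).restrict_preimage
      (measurableSet_Ioo (a := (0 : ℝ)) (b := T))
    rw [← e] at h2
    exact h2
  have h3 := h1.lintegral_comp_emb (MeasurableEquiv.subLeft T).measurableEmbedding
    (fun t => (∫⁻ x in cube, ENNReal.ofReal (∑ i, |v t x i| ^ q)) ^ (2 / q))
  unfold InLq at h ⊢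
  rw [← h3] at h
  refine ne_of_eq_of_ne ?_ h
  refine lintegral_congr fun t => ?_
  show (∫⁻ x in cube, ENNReal.ofReal (∑ i, |(-(v (T - t) x i))| ^ q)) ^ (2 / q)
    = (∫⁻ x in cube, ENNReal.ofReal (∑ i, |v (T - t) x i| ^ q)) ^ (2 / q)
  simp only [abs_neg]

/-- The end value is in the class. -/
theorem end_R (hν : 0 < ν) (hT : 0 < T) (hc : Dis c) (hV : VW ν T c v) :
    ∃ R : Fin 3 → Fin 3 → V → ℝ, Str R ∧ IsDiv R (cE ν T c v) ∧
      ∀ p : ℝ, 1 ≤ p → InLq T v (2 * p) → ∀ i j, IntegrableOn (fun x => |R i j x| ^ p) cube := by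
  obtain ⟨χ, hχ, h0, hs, hχ1, s₀, hs₀, hd⟩ := exists_cut2 hT
  have hχc : Continuous χ := hχ.continuous
  set u : ℝ → V → V := rev T v with hu
  have hW : VW (-ν) T (fun k => -cE ν T c v k) u := rev_vw hT hc hV
  have hb : Dis (fun k => -cE ν T c v k) := by
    have h := cE_dis (ν := ν) (T := T) (v := v) hc
    refine ⟨fun k i => ?_, fun k => ?_, ?_⟩
    · show -cE ν T c v (-k) i = conj (-cE ν T c v k i)
      rw [h.herm k i, map_neg]
    · have h1 := h.dv k
      show ∑ j, (k j : ℂ) * -cE ν T c v k j = 0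
      simp only [mul_neg, Finset.sum_neg_distrib]
      rw [show ∑ j, (k j : ℂ) * cE ν T c v k j = kd k (cE ν T c v k) from rfl, h1, neg_zero]
    · obtain ⟨C, m, hC⟩ := h.grow
      exact ⟨C, m, fun k => by rw [norm_neg]; exact hC k⟩
  choose M hMp hMi hMk hMq using fun i j : Fin 3 =>
    h744.WQ.stmNecB ν T hν hT (fun t x => u t x i * u t x j) (int_uu hW i j) χ hχc
  have hBs := summable_Bt' hν hT (fun i => int_u hW i) hχ hs₀ hd
  set R : Fin 3 → Fin 3 → V → ℝ := fun i j x =>
    (S (anti (Bt ν T χ u) i j) x).re + (-(1 / 2)) * (M i j x + M j i x) with hR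
  have iS : ∀ i j, IntegrableOn (fun x => (S (anti (Bt ν T χ u) i j) x).re) cube :=
    fun i j => integrableOn_cube (cont_reS (hBs i j))
  have iM : ∀ i j, IntegrableOn (fun x => (-(1 / 2) : ℝ) * (M i j x + M j i x)) cube := fun i j =>
    ((hMi i j).add (hMi j i)).const_mul _
  refine ⟨R, ⟨?_, ?_, ?_⟩, ?_, ?_⟩
  · intro i j m x
    simp only [hR, hMp i j m x, hMp j i m x, per_reS (anti (Bt ν T χ u) i j) m x]
  · intro i j x
    simp only [hR]
    rw [anti_comm' _ i j, add_comm (M i j x)]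
  · intro i j
    exact (iS i j).add (iM i j)
  · intro k hk0
    have hsq : (GD.sq k : ℂ) ≠ 0 := by
      exact_mod_cast (sq_pos' hk0).ne'
    have hsum : ∑ j, (k j : ℂ) * (k j : ℂ) = (GD.sq k : ℂ) := by
      rw [GD.sq]
      push_cast
      exact Finset.sum_congr rfl fun j _ => by ring
    have hpi : (2 * Real.pi * Complex.I : ℂ) ≠ 0 := Complex.two_pi_I_ne_zero
    have hαc : Continuous fun t : ℝ => (χ t : ℂ) * (Real.exp (-(lam ν k * t)) : ℂ) :=
      (Complex.continuous_ofReal.comp hχc).mul (Complex.continuous_ofReal.comp (by fun_prop))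
    have eM : ∀ i j, fr (M i j) k = Mk ν T χ u k i j := by
      intro i j
      rw [hMk i j k, Mk, ← fub hαc k (int_uu hW i j)]
      rfl
    have eR : ∀ i j, fr (R i j) k = anti (Bt ν T χ u) i j k - Mk ν T χ u k i j := by
      intro i j
      have h1 := fr_add' (iS i j) (iM i j) k
      have h4 := fr_add' (hMi i j) (hMi j i) k
      have h5 : fr (R i j) k = fr (fun x => (S (anti (Bt ν T χ u) i j) x).re) k
          + fr (fun x => (-(1 / 2) : ℝ) * (M i j x + M j i x)) k := h1
      rw [h5, fr_smul', h4, fr_reS (hBs i j) (anti_herm' (Bt_herm ν T χ u) i j), eM, eM,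
        Mk_comm ν T χ u k j i]
      push_cast
      ring
    have hduh := duh hb hW hχ h0 hs hk0
    have hkd : kd k (Bt ν T χ u k) = 0 := kd_prj k _
    have e1 : (fun i => ∑ j, (k j : ℂ) * fr (R i j) k)
        = (1 / (2 * Real.pi * Complex.I) : ℂ) • Bt ν T χ u k
          - fun i => ∑ j, (k j : ℂ) * Mk ν T χ u k i j := by
      funext i
      have e2 : ∀ j : Fin 3, (k j : ℂ) * fr (R i j) k
          = 1 / (2 * Real.pi * Complex.I * (GD.sq k : ℂ))
              * (Bt ν T χ u k i * ((k j : ℂ) * (k j : ℂ))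
                + (k i : ℂ) * ((k j : ℂ) * Bt ν T χ u k j))
            - (k j : ℂ) * Mk ν T χ u k i j := by
        intro j
        rw [eR, anti]
        ring
      rw [Finset.sum_congr rfl fun j _ => e2 j, Finset.sum_sub_distrib, ← Finset.mul_sum,
        Finset.sum_add_distrib, ← Finset.mul_sum, ← Finset.mul_sum, hsum]
      rw [show ∑ j, (k j : ℂ) * Bt ν T χ u k j = kd k (Bt ν T χ u k) from rfl, hkd]
      simp only [Pi.sub_apply, Pi.smul_apply, smul_eq_mul]
      field_simp
      ring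
    have hneg : cE ν T c v k = -(-cE ν T c v k) := (neg_neg _).symm
    show cE ν T c v k = (2 * Real.pi * Complex.I : ℂ) • prj k (fun i => ∑ j, (k j : ℂ)
      * fr (R i j) k)
    rw [hneg, hduh, e1, prj_sub, prj_smul, smul_sub, smul_smul, mul_one_div_cancel hpi, one_smul,
      prj_of_kd_eq_zero hkd, Bt]
    abel
  · intro p hp hLq i j
    have hp0 : 0 < p := zero_lt_one.trans_le hp
    have := cube_finite
    have hLq' := rev_lq hLq
    have mM : ∀ i j, MemLp (M i j) (ENNReal.ofReal p) (volume.restrict cube) := by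
      intro i j
      have h1 := hMq i j p hp (inB hp hLq' i j)
      rwa [memLp_cube hp (hMi i j)] at h1
    have mS : MemLp (fun x => (S (anti (Bt ν T χ u) i j) x).re) (ENNReal.ofReal p)
        (volume.restrict cube) := by
      rw [← memLp_cube hp (iS i j)]
      exact integrableOn_cube ((cont_reS (hBs i j)).abs.rpow_const fun x => Or.inr hp0.le)
    have hint : IntegrableOn (R i j) cube := (iS i j).add (iM i j)
    rw [memLp_cube hp hint]
    exact mS.add (((mM i j).add (mM j i)).const_mul _)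

/-- **Piece End.** -/
theorem stmEnd : StmEnd := by
  intro ν hν c hc Q hQ T hT v hV hLq
  obtain ⟨R, h1, h2, h3⟩ := end_R hν hT hc hV
  exact ⟨cE ν T c v, cE_dis hc, cE_zero ν T c v, ⟨R, h1, h2, fun n => h3 (Q n) (hQ n) (hLq n)⟩,
    fun η φ hη hφ hp => div_all hV hη hφ hp,
    fun χ φ hχ hφ hp hd => end_formula hT hc hV hχ hφ hp hd⟩

end Pool.Agent.Run7.h219.HP
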