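import Pool.Agent.Run7.h219.HP.Sol
import Pool.Agent.Run7.h744.WQ.Q0
import Pool.Agent.Run7.h219.WQ.NecQ
import Pool.Agent.Run7.h308.GS.P10

/-!
The data of the restart: smooth fields with mean zero are in the class of the initial values.
-/

set_option autoImplicit false

open MeasureTheory Set Filter Topology
open scoped ContDiff ENNReal ComplexConjugate

namespace Pool.Agent.Run7.h219.HP

open H459R3.NS Pool.Agent.Run7.h782 Pool.Agent.Run7.h782.GD Pool.Agent.Run7.h782.GS
open Pool.Agent.Run7.h782.WS Pool.Agent.Run7.h782.WQ Pool.Agent.Run7.h744.WS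
open Pool.Agent.Run7.h969.WS Pool.Agent.Run7.h969.HP Pool.Agent.Run7.h219.OS
open Pool.Agent.Run7.h782.OS Run7.h475.WS

/-- Absolutely summable divergence free families are `P div R` with `R` continuous. -/
theorem exists_R {c : Cf} (hh : Herm c) (hd : Dv c) (h0 : c 0 = 0)
    (hs : Summable fun k => ‖c k‖) : ∃ R : Fin 3 → Fin 3 → V → ℝ, Str R ∧ IsDiv R c ∧
      ∀ Q : ℝ, 0 ≤ Q → ∀ i j, IntegrableOn (fun x => |R i j x| ^ Q) cube := by
  obtain ⟨-, -, -, -, -, -, -, -, q9, q10, q11⟩ := h744.WQ.stmQ0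
  have hsl : Summable fun k => ‖c k‖ / len k :=
    h308.GS.div_len_summable hs fun k => norm_nonneg _
  have h1 : R1 (anti c) := (q9 c hsl).1
  have hsy : Sy (anti c) := q10 c hh
  have hsum : ∀ i j, Summable (anti c i j) := fun i j => (h1 i j).of_norm
  have hcr : ∀ i j, Continuous fun x => (S (anti c i j) x).re := fun i j =>
    h219.WQ.cont_reS (hsum i j)
  refine ⟨fun i j x => (S (anti c i j) x).re, ⟨fun i j => h219.WQ.per_reS _, fun i j x => ?_,
    fun i j => integrableOn_cube (hcr i j)⟩, fun k _ => ?_, fun Q hQ i j =>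
    integrableOn_cube ((hcr i j).abs.rpow_const fun x => Or.inr hQ)⟩
  · have : anti c i j = anti c j i := funext fun k => hsy.sym i j k
    show (S (anti c i j) x).re = (S (anti c j i) x).re
    rw [this]
  · have e : (fun i j l => fr (fun x => (S (anti c i j) x).re) l : Mf) = anti c := by
      funext i j l
      exact h219.WQ.fr_reS (hsum i j) (fun k => hsy.herm i j k) l
    rw [e, q11 c hd h0]

section

variable {ν : ℝ} {I : Set ℝ} {u : ℝ → V → V} {p : ℝ → V → ℝ}

theorem dv_o (h : SolOn ν I u p) {t : ℝ} (ht : t ∈ I) : Dv (vf (u t)) := fun k =>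
  fr_div (v := fun i y => u t y i) (fun i => sp_o h ht i) (h.divfree t ht) k

theorem zero_o {v : V → V} (hm : ∀ i, ∫ x in cube, v x i = 0) : vf v 0 = 0 := by
  funext i
  show fr (fun x => v x i) 0 = 0
  rw [h32.GD.fr_zero_eq]
  simp [hm i]

/-- The pairing with a smooth field. -/
theorem pr_vf {v : V → V} (hv : ∀ i, SP (fun y => v y i)) (i : Fin 3) {φ : V → ℝ}
    (hφ : Continuous φ) : pr (vf v) i φ = ∫ x in cube, v x i * φ x := by
  show (∑' k, fr (fun x => v x i) k * conj (fr φ k)).re = _
  rw [← h980.WS.parseval (hv i) hφ, Complex.ofReal_re]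

end

end Pool.Agent.Run7.h219.HP
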