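import Pool.Agent.Run7.h219.HP.GlueW
import Pool.Agent.Run7.h219.HP.Reg

/-!
The induction over the intervals `[j τ, (j + 1) τ]`.
-/

set_option autoImplicit false

open MeasureTheory Set Filter Topology
open scoped ContDiff ENNReal ComplexConjugate

namespace Pool.Agent.Run7.h219.HP

open H459R3.NS Pool.Agent.Run7.h782 Pool.Agent.Run7.h782.GD Pool.Agent.Run7.h782.GS
open Pool.Agent.Run7.h782.WS Pool.Agent.Run7.h782.WQ Pool.Agent.Run7.h744.WS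
open Pool.Agent.Run7.h969.WS Pool.Agent.Run7.h969.HP Pool.Agent.Run7.h219.OS
open Pool.Agent.Run7.h782.OS Run7.h475.WS

/-- The properties of the solution: `T` is the length of the rest of the path, `K` the bound for the
distance to the path. -/
structure Good (ν : ℝ) (Q : ℕ → ℝ) (c : Cf) (T q : ℝ) (K : ℝ≥0∞) (ε : ℝ) (w : ℝ → V → V)
    (F : Finset ℝ) (u : ℝ → V → V) (p : ℝ → V → ℝ) : Prop where
  mem : ∀ s ∈ F, s ∈ Icc 0 T
  sol : SolOn ν (Ioi 0 \ (F : Set ℝ)) u p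
  vw : ∀ T', 0 < T' → VW ν T' c u
  lq : ∀ T', 0 < T' → ∀ n, InLq T' u (2 * Q n)
  wc : ∀ (i : Fin 3) (ψ : V → ℝ), ContDiff ℝ ∞ ψ → Per ψ →
    ContinuousOn (fun t => ∫ x in cube, u t x i * ψ x) (Ioi 0)
  wa : ∀ (i : Fin 3) (ψ : V → ℝ), ContDiff ℝ ∞ ψ → Per ψ →
    Tendsto (fun t => ∫ x in cube, u t x i * ψ x) (𝓝[>] 0) (𝓝 (pr c i ψ))
  loc : ∀ s, 0 ≤ s → ∀ δ : ℝ, 0 < δ → ∀ᶠ t in 𝓝[>] s, ∀ x i, |u t x i| ≤ δ / Real.sqrt (t - s)
  near : ∫⁻ t in Ioo 0 T, (⨆ x, ⨆ i, ENNReal.ofReal |u t x i - w t x i|) ^ q ≤ K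
  late : ∀ t, T + ε ≤ t → ∀ x i, |u t x i| ≤ ε

/-- Translation to the right neighbourhoods. -/
theorem tr_right (τ s : ℝ) : Tendsto (fun t : ℝ => t - τ) (𝓝[>] (s + τ)) (𝓝[>] s) := by
  refine tendsto_nhdsWithin_iff.2 ⟨?_, ?_⟩
  · have h : Tendsto (fun t : ℝ => t - τ) (𝓝 (s + τ)) (𝓝 s) := by
      have h2 : Continuous fun t : ℝ => t - τ := by fun_prop
      have h3 := h2.tendsto (s + τ)
      rwa [add_sub_cancel_right] at h3
    exact h.mono_left nhdsWithin_le_nhds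
  · filter_upwards [self_mem_nhdsWithin] with t ht
    have : s + τ < t := ht
    show s < t - τ
    linarith

/-- `o (1 / √t)` from the bound. -/
theorem loc_zero {u : ℝ → V → V} {τ : ℝ} (hτ : 0 < τ) {h : ℝ → ℝ}
    (hb : ∀ t ∈ Ioc 0 τ, ∀ x i, |u t x i| ≤ h t)
    (hh : Tendsto (fun t => Real.sqrt t * h t) (𝓝[>] 0) (𝓝 0)) {δ : ℝ} (hδ : 0 < δ) :
    ∀ᶠ t in 𝓝[>] (0 : ℝ), ∀ x i, |u t x i| ≤ δ / Real.sqrt (t - 0) := by
  filter_upwards [hh.eventually (gt_mem_nhds hδ), Ioo_mem_nhdsGT hτ] with t h1 h2 x i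
  have h3 : 0 < Real.sqrt t := Real.sqrt_pos.2 h2.1
  rw [sub_zero, le_div_iff₀ h3]
  refine (mul_le_mul_of_nonneg_right (hb t ⟨h2.1, h2.2.le⟩ x i) h3.le).trans ?_
  rw [mul_comm]
  exact h1.le

/-- **The step.** -/
theorem good_succ {ν : ℝ} (hν : 0 < ν) {Q : ℕ → ℝ} {c : Cf} {T q : ℝ} {κ K : ℝ≥0∞}
    {ε : ℝ} {w : ℝ → V → V} {τ τ' : ℝ} (hτ : 0 < τ) (hτ' : τ < τ') (hT : 0 ≤ T) (hε : 0 < ε)
    {u₁ u₂ : ℝ → V → V} {p₁ p₂ : ℝ → V → ℝ} (h : SolOn ν (Ioo 0 τ') u₁ p₁)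
    (hL : ∀ i, IntegrableOn (fun z : ℝ × V => u₁ z.1 z.2 i ^ 2) (Ioc 0 τ ×ˢ cube))
    (hlq : ∀ n, InLq τ u₁ (2 * Q n))
    (hwa : ∀ (i : Fin 3) (ψ : V → ℝ), ContDiff ℝ ∞ ψ → Per ψ →
      Tendsto (fun t => ∫ x in cube, u₁ t x i * ψ x) (𝓝[>] 0) (𝓝 (pr c i ψ)))
    (hh : ∃ h : ℝ → ℝ, (∀ t ∈ Ioc 0 τ, ∀ x i, |u₁ t x i| ≤ h t) ∧
      Tendsto (fun t => Real.sqrt t * h t) (𝓝[>] 0) (𝓝 0))
    (hn : ∫⁻ t in Ioo 0 τ, (⨆ x, ⨆ i, ENNReal.ofReal |u₁ t x i - w t x i|) ^ q ≤ κ)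
    {F : Finset ℝ} (g : Good ν Q (vf (u₁ τ)) T q K ε (fun t => w (τ + t)) F u₂ p₂) :
    Good ν Q c (τ + T) q (κ + K) ε w (sing τ F) (gl τ u₁ u₂) (gl τ p₁ p₂) := by
  have hτm : τ ∈ Ioo 0 τ' := ⟨hτ, hτ'⟩
  have hsub : Ioo 0 τ ⊆ Ioo 0 τ' := Ioo_subset_Ioo_right hτ'.le
  have hsp : ∀ i, SP (fun y => u₁ τ y i) := fun i => sp_o h hτm i
  refine ⟨?_, gl_sol hτ' h g.sol, ?_, ?_, ?_, ?_, ?_, ?_, ?_⟩
  · intro s hs
    rw [sing, Finset.mem_insert, Finset.mem_image] at hs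
    rcases hs with rfl | ⟨r, hr, rfl⟩
    · exact ⟨hτ.le, by linarith⟩
    · have := g.mem r hr
      exact ⟨by linarith [this.1], by linarith [this.2]⟩
  · intro T' hT'
    have hL' : ∀ i, IntegrableOn (fun z : ℝ × V => u₁ z.1 z.2 i ^ 2) (Ioo 0 τ ×ˢ cube) := fun i =>
      (hL i).mono_set (prod_mono Ioo_subset_Ioc_self le_rfl)
    have hm : ∀ i, AEStronglyMeasurable (fun z : ℝ × V => u₁ z.1 z.2 i)
        (volume.restrict (Ioo 0 τ ×ˢ cube)) := fun i =>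
      ((smooth_o h i).continuousOn.mono (prod_mono hsub (subset_univ _))).aestronglyMeasurable
        (boxm 0 τ)
    have h1 : VW ν (max T' (τ + 1)) c (gl τ u₁ u₂) := by
      have h2 : τ < max T' (τ + 1) := (lt_add_one τ).trans_le (le_max_right _ _)
      refine gen_vw hτ (c := vf (u₁ τ)) hm hL'
        (fun η φ hη hφ hp => div_o (mono_o h hsub) hL' η φ hη hφ hp) ?_
        (fun t ht => gl_le ht.2.le) (fun t ht => gl_gt ht) h2 (g.vw _ (sub_pos.2 h2))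
      intro χ φ hχ hφ hp hd
      have h3 := stmVWL ν τ τ' hν hτ hτ' u₁ p₁ h hL c hwa χ φ hχ hφ hp hd
      have e : ∑ i, pr (vf (u₁ τ)) i (fun x => φ x i) = ∑ i, ∫ x in cube, u₁ τ x i * φ x i :=
        Finset.sum_congr rfl fun i _ => pr_vf hsp i (contDiff_pi.1 hφ i).continuous
      rw [e]
      exact h3
    exact vw_mono h1 (le_max_left _ _)
  · intro T' hT' n
    have h1 := lint_glue (τ := τ) (T := T')
      (H := fun t => (∫⁻ x in cube, ENNReal.ofReal (∑ i, |gl τ u₁ u₂ t x i| ^ (2 * Q n)))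
        ^ (2 / (2 * Q n)))
      (H₁ := fun t => (∫⁻ x in cube, ENNReal.ofReal (∑ i, |u₁ t x i| ^ (2 * Q n)))
        ^ (2 / (2 * Q n)))
      (H₂ := fun t => (∫⁻ x in cube, ENNReal.ofReal (∑ i, |u₂ t x i| ^ (2 * Q n)))
        ^ (2 / (2 * Q n)))
      (fun t ht => by simp only [gl_le (a := u₁) (b := u₂) ht.2.le])
      (fun t ht => by simp only [gl_gt (a := u₁) (b := u₂) ht])
    have hsub' : Ioo 0 T' ⊆ Ioo 0 (τ + T') := Ioo_subset_Ioo_right (by linarith)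
    have h2 := lintegral_mono_set (μ := volume)
      (f := fun t => (∫⁻ x in cube, ENNReal.ofReal (∑ i, |gl τ u₁ u₂ t x i| ^ (2 * Q n)))
        ^ (2 / (2 * Q n))) hsub'
    exact ne_top_of_le_ne_top (ENNReal.add_ne_top.2 ⟨hlq n, g.lq T' hT' n⟩) (h2.trans h1)
  · intro i ψ hψ hp t₀ ht₀
    refine ContinuousAt.continuousWithinAt ?_
    have hc1 := pair_cont isOpen_Ioo h hψ.continuous i
    rcases lt_trichotomy t₀ τ with ht | ht | ht
    · refine (hc1.continuousAt (Ioo_mem_nhds ht₀ (ht.trans hτ'))).congr ?_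
      filter_upwards [Iio_mem_nhds ht] with t h1
      rw [gl_le (le_of_lt h1)]
    · subst ht
      have e0 : (∫ x in cube, gl t₀ u₁ u₂ t₀ x i * ψ x) = ∫ x in cube, u₁ t₀ x i * ψ x := by
        rw [gl_le le_rfl]
      rw [continuousAt_iff_continuous_left'_right']
      constructor
      · show Tendsto _ _ (𝓝 (∫ x in cube, gl t₀ u₁ u₂ t₀ x i * ψ x))
        rw [e0]
        have h1 : Tendsto (fun t => ∫ x in cube, u₁ t x i * ψ x) (𝓝[<] t₀)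
            (𝓝 (∫ x in cube, u₁ t₀ x i * ψ x)) :=
          (hc1.continuousAt (Ioo_mem_nhds hτ hτ')).tendsto.mono_left nhdsWithin_le_nhds
        refine h1.congr' ?_
        filter_upwards [self_mem_nhdsWithin] with t h1
        rw [gl_le (le_of_lt h1)]
      · show Tendsto _ _ (𝓝 (∫ x in cube, gl t₀ u₁ u₂ t₀ x i * ψ x))
        rw [e0, ← pr_vf hsp i hψ.continuous]
        have h2 := tr_right t₀ 0
        rw [zero_add] at h2
        refine ((g.wa i ψ hψ hp).comp h2).congr' ?_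
        filter_upwards [self_mem_nhdsWithin] with t h1
        show (∫ x in cube, u₂ (t - t₀) x i * ψ x) = _
        rw [gl_gt h1]
    · have h1 : ContinuousAt (fun t => ∫ x in cube, u₂ (t - τ) x i * ψ x) t₀ := by
        have h2 : ContinuousAt (fun t => ∫ x in cube, u₂ t x i * ψ x) (t₀ - τ) :=
          (g.wc i ψ hψ hp).continuousAt (Ioi_mem_nhds (sub_pos.2 ht))
        exact ContinuousAt.comp (g := fun t => ∫ x in cube, u₂ t x i * ψ x)
          (f := fun t => t - τ) h2 (by fun_prop)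
      refine h1.congr ?_
      filter_upwards [Ioi_mem_nhds ht] with t h1
      rw [gl_gt h1]
  · intro i ψ hψ hp
    refine (hwa i ψ hψ hp).congr' ?_
    filter_upwards [Ioo_mem_nhdsGT hτ] with t h1
    rw [gl_le h1.2.le]
  · intro s hs δ hδ
    rcases lt_or_ge s τ with hs1 | hs1
    · have h1 : ∀ᶠ t in 𝓝[>] s, ∀ x i, |u₁ t x i| ≤ δ / Real.sqrt (t - s) := by
        rcases hs.eq_or_lt with rfl | hs0
        · obtain ⟨b, hb1, hb2⟩ := hh
          exact loc_zero hτ hb1 hb2 hδ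
        · exact ev_reg isOpen_Ioo h ⟨hs0, hs1.trans hτ'⟩ hδ
      filter_upwards [h1, nhdsWithin_le_nhds (Iio_mem_nhds hs1)] with t h2 h3 x i
      rw [gl_le (le_of_lt h3)]
      exact h2 x i
    · have h1 := g.loc (s - τ) (sub_nonneg.2 hs1) δ hδ
      have h2 := tr_right τ (s - τ)
      rw [sub_add_cancel] at h2
      filter_upwards [h2.eventually h1, self_mem_nhdsWithin] with t h3 h4 x i
      rw [gl_gt (lt_of_le_of_lt hs1 h4)]
      have h5 := h3 x i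
      have e : t - τ - (s - τ) = t - s := by ring
      rwa [e] at h5
  · refine (lint_glue (τ := τ) (T := T)
      (H₁ := fun t => (⨆ x, ⨆ i, ENNReal.ofReal |u₁ t x i - w t x i|) ^ q)
      (H₂ := fun t => (⨆ x, ⨆ i, ENNReal.ofReal |u₂ t x i - w (τ + t) x i|) ^ q)
      (fun t ht => by simp only [gl_le (a := u₁) (b := u₂) ht.2.le])
      (fun t ht => by simp only [gl_gt (a := u₁) (b := u₂) ht, add_sub_cancel])).trans ?_
    exact add_le_add hn g.near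
  · intro t ht x i
    have h1 : τ < t := by linarith
    rw [gl_gt h1]
    exact g.late _ (by linarith) x i

/-- The zero solution. -/
theorem zero_sol (ν T : ℝ) : IsSol ν T (fun _ _ => 0) (fun _ _ => 0) := by
  have h0 : ∀ (j : Fin 3) (x : V), pd j (fun _ : V => (0 : ℝ)) x = 0 := fun j x => by
    unfold pd
    rw [fderiv_fun_const]
    rfl
  have h1 : ∀ j : Fin 3, pd j (fun _ : V => (0 : ℝ)) = fun _ => 0 := fun j => funext (h0 j)
  refine ⟨contDiffOn_const, contDiffOn_const, fun t _ j x => rfl, fun t _ j x => rfl,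
    fun t _ x => ?_, fun t _ x i => ?_⟩
  · exact Finset.sum_eq_zero fun i _ => h0 i x
  · show deriv (fun _ : ℝ => (0 : ℝ)) t + ∑ j, (0 : ℝ) * pd j (fun _ : V => (0 : ℝ)) x
      = ν * ∑ j, pd j (pd j (fun _ : V => (0 : ℝ))) x - pd i (fun _ : V => (0 : ℝ)) x
    simp only [h1, deriv_const, Finset.sum_const_zero, mul_zero, sub_zero, add_zero]

theorem zero_gauge : Gauge fun _ => (0 : ℝ) :=
  ⟨rfl, fun _ _ => le_rfl, convexOn_const 0 (convex_Ici 0), by simp⟩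

/-- **The base.** -/
theorem good_zero (hF : StmFinal) {ν : ℝ} (hν : 0 < ν) {Q : ℕ → ℝ} (hQ : ∀ n, 1 ≤ Q n)
    {c : Cf} (hc : Dis c) (h0 : c 0 = 0) (hR : ∃ R : Fin 3 → Fin 3 → V → ℝ, Str R ∧ IsDiv R c ∧
      ∀ n i j, IntegrableOn (fun x => |R i j x| ^ Q n) cube) (q : ℝ) {ε : ℝ} (hε : 0 < ε)
    (w : ℝ → V → V) : ∃ (u : ℝ → V → V) (p : ℝ → V → ℝ), Good ν Q c 0 q 0 ε w ∅ u p := by
  obtain ⟨R, hR1, hR2, hR3⟩ := hR
  obtain ⟨u, p, ho, hvw, hlq, hwa, -, ⟨b, hb1, hb2, -⟩, -, -, hl⟩ := (hF ν hν c hc Q hQ).2 R hR1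
    hR2 hR3 (fun _ _ => 0) (fun _ _ => 0) (fun T => zero_sol ν T) (fun i => by simp [h0])
    (fun _ => 0) zero_gauge ε hε
  have hs : SolOn ν (Ioi 0) u p := ⟨ho.smooth_u, ho.smooth_p, ho.per_u, ho.per_p, ho.divfree,
    ho.momentum⟩
  refine ⟨u, p, ⟨fun s hs => absurd hs (Finset.notMem_empty s), ?_, hvw, hlq,
    fun i ψ hψ _ => pair_cont isOpen_Ioi hs hψ.continuous i, hwa, ?_, ?_, ?_⟩⟩
  · rw [Finset.coe_empty, sdiff_empty]
    exact hs
  · intro s h1 δ hδ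
    rcases h1.eq_or_lt with rfl | h2
    · exact loc_zero one_pos (fun t ht => hb1 t ht.1) hb2 hδ
    · exact ev_reg isOpen_Ioi hs h2 hδ
  · simp
  · intro t ht x i
    have := hl t (by linarith) x i
    simpa using this

theorem herm_vf' (v : V → V) : Herm (vf v) := fun k _ => Pool.Agent.Run7.h32.GD.fr_neg _ k

/-- The data of the restart. -/
theorem restart {ν : ℝ} {I : Set ℝ} {u : ℝ → V → V} {p : ℝ → V → ℝ} (h : SolOn ν I u p) {t : ℝ}
    (ht : t ∈ I) (hm : ∀ i, ∫ x in cube, u t x i = 0) {Q : ℕ → ℝ} (hQ : ∀ n, 1 ≤ Q n) :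
    Dis (vf (u t)) ∧ vf (u t) 0 = 0 ∧ ∃ R : Fin 3 → Fin 3 → V → ℝ, Str R ∧ IsDiv R (vf (u t)) ∧
      ∀ n i j, IntegrableOn (fun x => |R i j x| ^ Q n) cube := by
  have hs := h308.GS.vf_summable (u := u t) fun i => sp_o h ht i
  have h0 := zero_o hm
  refine ⟨⟨herm_vf' (u t), dv_o h ht, ⟨∑' k, ‖vf (u t) k‖, 0, fun k => ?_⟩⟩, h0, ?_⟩
  · rw [pow_zero, mul_one]
    exact hs.le_tsum k fun _ _ => norm_nonneg _
  · obtain ⟨R, h1, h2, h3⟩ := exists_R (herm_vf' (u t)) (dv_o h ht) h0 hs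
    exact ⟨R, h1, h2, fun n => h3 (Q n) (by linarith [hQ n])⟩

/-- The bound for one interval. -/
theorem one_int {q τ ε₀ δ : ℝ} (hq : 0 < q) (hq2 : q < 2) (hτ : 0 < τ) (hε₀ : 0 < ε₀)
    (hδ : 0 < δ) {u w : ℝ → V → V}
    (h : ∀ t ∈ Ioc 0 τ, ∀ x i, |u t x i - w t x i| ≤ ε₀ + δ / Real.sqrt t) :
    ∫⁻ t in Ioo 0 τ, (⨆ x, ⨆ i, ENNReal.ofReal |u t x i - w t x i|) ^ q
      ≤ ENNReal.ofReal (2 ^ q * (τ * ε₀ ^ q + δ ^ q * ∫ t in Ioo 0 τ, t ^ (-(q / 2)))) := by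
  have hi : IntegrableOn (fun t : ℝ => t ^ (-(q / 2))) (Ioo 0 τ) :=
    (intervalIntegral.integrableOn_Ioo_rpow_iff hτ).2 (by linarith)
  have hi0 : IntegrableOn (fun _ : ℝ => ε₀ ^ q) (Ioo 0 τ) := integrableOn_const (by simp)
  have hi1 : IntegrableOn (fun t : ℝ => ε₀ ^ q + δ ^ q * t ^ (-(q / 2))) (Ioo 0 τ) :=
    hi0.add (hi.const_mul _)
  have hi2 : IntegrableOn (fun t : ℝ => 2 ^ q * (ε₀ ^ q + δ ^ q * t ^ (-(q / 2)))) (Ioo 0 τ) :=
    hi1.const_mul _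
  have e : 2 ^ q * (τ * ε₀ ^ q + δ ^ q * ∫ t in Ioo 0 τ, t ^ (-(q / 2)))
      = ∫ t in Ioo 0 τ, 2 ^ q * (ε₀ ^ q + δ ^ q * t ^ (-(q / 2))) := by
    rw [integral_const_mul, integral_add hi0 (hi.const_mul _),
      integral_const_mul, setIntegral_const]
    simp [hτ.le]
  have hnn : ∀ t ∈ Ioo (0 : ℝ) τ, 0 ≤ 2 ^ q * (ε₀ ^ q + δ ^ q * t ^ (-(q / 2))) := by
    intro t ht
    have := Real.rpow_nonneg ht.1.le (-(q / 2))
    positivity
  rw [e, ofReal_integral_eq_lintegral_ofReal hi2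
    ((ae_restrict_mem measurableSet_Ioo).mono hnn)]
  refine setLIntegral_mono' measurableSet_Ioo fun t ht => ?_
  have hs : 0 < Real.sqrt t := Real.sqrt_pos.2 ht.1
  have h1 : (⨆ x, ⨆ i, ENNReal.ofReal |u t x i - w t x i|)
      ≤ ENNReal.ofReal (ε₀ + δ / Real.sqrt t) :=
    iSup_le fun x => iSup_le fun i => ENNReal.ofReal_le_ofReal (h t ⟨ht.1, ht.2.le⟩ x i)
  refine (ENNReal.rpow_le_rpow h1 hq.le).trans ?_
  rw [ENNReal.ofReal_rpow_of_nonneg (by positivity) hq.le]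
  refine ENNReal.ofReal_le_ofReal ?_
  have h2 : (δ / Real.sqrt t) ^ q = δ ^ q * t ^ (-(q / 2)) := by
    rw [div_eq_mul_inv, Real.mul_rpow hδ.le (inv_nonneg.2 hs.le), Real.sqrt_eq_rpow,
      ← Real.rpow_neg ht.1.le, ← Real.rpow_mul ht.1.le]
    congr 2
    ring
  rw [← h2]
  have h3 : 0 ≤ δ / Real.sqrt t := by positivity
  rcases le_total ε₀ (δ / Real.sqrt t) with h4 | h4
  · calc (ε₀ + δ / Real.sqrt t) ^ q ≤ (2 * (δ / Real.sqrt t)) ^ q :=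
          Real.rpow_le_rpow (by positivity) (by linarith) hq.le
      _ = 2 ^ q * (δ / Real.sqrt t) ^ q := Real.mul_rpow (by norm_num) h3
      _ ≤ _ := by
        refine mul_le_mul_of_nonneg_left ?_ (by positivity)
        have := Real.rpow_nonneg hε₀.le q
        linarith
  · calc (ε₀ + δ / Real.sqrt t) ^ q ≤ (2 * ε₀) ^ q :=
          Real.rpow_le_rpow (by positivity) (by linarith) hq.le
      _ = 2 ^ q * ε₀ ^ q := Real.mul_rpow (by norm_num) hε₀.le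
      _ ≤ _ := by
        refine mul_le_mul_of_nonneg_left ?_ (by positivity)
        have := Real.rpow_nonneg h3 q
        linarith

/-- **The theorem**, from the local form. -/
theorem stmHP_of (hF : StmFinal) (hLoc : StmLocF) : StmHP := by
  intro ν hν T hT w hw c hc hc0 Q hQ hR q ε hq hq2 hε
  -- the parameters
  have hA : (0 : ℝ) < 2 ^ q := by positivity
  set ε₀ : ℝ := (ε / (2 * 2 ^ q * T)) ^ (1 / q) with hε₀d
  have hε₀ : 0 < ε₀ := by positivity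
  have hε₀q : ε₀ ^ q = ε / (2 * 2 ^ q * T) := by
    rw [hε₀d, ← Real.rpow_mul (by positivity), one_div, inv_mul_cancel₀ hq.ne', Real.rpow_one]
  obtain ⟨τ₀, hτ₀, hLoc⟩ := hLoc ν hν w hw T ε₀ hT hε₀
  obtain ⟨N, hN⟩ := exists_nat_gt (T / τ₀)
  have hN0 : (0 : ℝ) < N := (div_pos hT hτ₀).trans hN
  set τ : ℝ := T / N with hτd
  have hτ : 0 < τ := by positivity
  have hττ₀ : τ < τ₀ := by
    rw [hτd, div_lt_iff₀ hN0]
    rw [div_lt_iff₀ hτ₀] at hN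
    linarith
  have hNτ : (N : ℝ) * τ = T := by
    rw [hτd]
    field_simp
  set J : ℝ := ∫ t in Ioo 0 τ, t ^ (-(q / 2)) with hJ
  have hJ0 : 0 ≤ J := setIntegral_nonneg measurableSet_Ioo fun t ht => Real.rpow_nonneg ht.1.le _
  set δ : ℝ := (ε / (2 * 2 ^ q * N * (J + 1))) ^ (1 / q) with hδd
  have hδ : 0 < δ := by positivity
  have hδq : δ ^ q = ε / (2 * 2 ^ q * N * (J + 1)) := by
    rw [hδd, ← Real.rpow_mul (by positivity), one_div, inv_mul_cancel₀ hq.ne', Real.rpow_one]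
  set κ : ℝ≥0∞ := ENNReal.ofReal (2 ^ q * (τ * ε₀ ^ q + δ ^ q * J)) with hκ
  -- the induction
  have ind : ∀ n : ℕ, ∀ s : ℝ, 0 ≤ s → s + n * τ = T → ∀ c : Cf, Dis c → c 0 = 0 →
      (∃ R : Fin 3 → Fin 3 → V → ℝ, Str R ∧ IsDiv R c ∧
        ∀ n i j, IntegrableOn (fun x => |R i j x| ^ Q n) cube) →
      ∃ (F : Finset ℝ) (u : ℝ → V → V) (p : ℝ → V → ℝ),
        Good ν Q c (n * τ) q (n * κ) ε (fun t => w (s + t)) F u p := by
    intro n
    induction n with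
    | zero =>
      intro s _ _ c hc h0 hR
      obtain ⟨u, p, h⟩ := good_zero hF hν hQ hc h0 hR q hε (fun t => w (s + t))
      refine ⟨∅, u, p, ?_⟩
      simpa using h
    | succ n ih =>
      intro s hs hsT c hc h0 hR
      obtain ⟨R, hR1, hR2, hR3⟩ := hR
      have hnτ : 0 ≤ (n : ℝ) * τ := by positivity
      have hsT' : s ≤ T := by
        have h1 : 0 ≤ ((n + 1 : ℕ) : ℝ) * τ := by positivity
        linarith
      obtain ⟨τ', u₁, p₁, hτ', hsol, hL, hlq, hwa, hmean, hh, hnear⟩ := hLoc τ hτ hττ₀ s ⟨hs, hsT'⟩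
        c hc.herm hc.dv h0 R hR1 hR2 Q hQ hR3 δ hδ
      obtain ⟨k1, k2, k3⟩ := restart hsol (t := τ) ⟨hτ, hτ'⟩ (hmean τ ⟨hτ, le_rfl⟩) hQ
      obtain ⟨F, u₂, p₂, g⟩ := ih (s + τ) (by linarith) (by
        rw [← hsT]
        push_cast
        ring) (vf (u₁ τ)) k1 k2 k3
      refine ⟨sing τ F, gl τ u₁ u₂, gl τ p₁ p₂, ?_⟩
      have e1 : ((n + 1 : ℕ) : ℝ) * τ = τ + n * τ := by
        push_cast
        ring
      have e2 : ((n + 1 : ℕ) : ℝ≥0∞) * κ = κ + n * κ := by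
        push_cast
        rw [add_mul, one_mul, add_comm]
      rw [e1, e2]
      refine good_succ hν hτ hτ' hnτ hε hsol hL hlq hwa hh
        (one_int hq hq2 hτ hε₀ hδ hnear) ?_
      simpa only [add_assoc] using g
  obtain ⟨F, u, p, g⟩ := ind N 0 le_rfl (by rw [zero_add, hNτ]) c hc hc0 hR
  rw [hNτ] at g
  refine ⟨F, u, p, g.mem, g.sol, g.vw, g.lq, fun i ψ hψ hp => ⟨g.wc i ψ hψ hp, g.wa i ψ hψ hp⟩,
    g.loc, ?_, g.late⟩
  have h1 := g.near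
  simp only [zero_add] at h1
  refine h1.trans ?_
  rw [hκ, ← ENNReal.ofReal_natCast, ← ENNReal.ofReal_mul hN0.le]
  refine ENNReal.ofReal_le_ofReal ?_
  rw [hε₀q, hδq]
  have e : (N : ℝ) * (2 ^ q * (τ * (ε / (2 * 2 ^ q * T)) + ε / (2 * 2 ^ q * N * (J + 1)) * J))
      = ε / 2 + ε / 2 * (J / (J + 1)) := by
    rw [← hNτ]
    field_simp
  rw [e]
  have h2 : J / (J + 1) ≤ 1 := by
    rw [div_le_one (by linarith)]
    linarith
  nlinarith

end Pool.Agent.Run7.h219.HP
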