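import Pool.Agent.Run7.h219.OS.C
import Pool.Agent.Run7.h219.WQ.NecC

/-!
The end value of a very weak solution (piece End), part 1: the end formula.
-/

set_option autoImplicit false

open MeasureTheory Set Filter Topology
open scoped ContDiff ENNReal ComplexConjugate

namespace Pool.Agent.Run7.h219.HP

open H459R3.NS Pool.Agent.Run7.h782 Pool.Agent.Run7.h782.GD Pool.Agent.Run7.h782.GS
open Pool.Agent.Run7.h782.WS Pool.Agent.Run7.h782.WQ Pool.Agent.Run7.h744.WS
open Pool.Agent.Run7.h969.WS Pool.Agent.Run7.h219.OS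
open Pool.Agent.Run7.h782.OS Run7.h475.WS

/-! ### Cutoffs -/

theorem st_smooth : ContDiff ℝ ∞ Real.smoothTransition :=
  Real.smoothTransition.contDiff (n := ⊤)

/-- `1` for `t ≤ T - 2 / n`, `0` for `t ≥ T - 1 / n`. -/
noncomputable def th (T : ℝ) (n : ℕ) (t : ℝ) : ℝ := Real.smoothTransition (n * (T - t) - 1)

theorem th_smooth (T : ℝ) (n : ℕ) : ContDiff ℝ ∞ (th T n) :=
  Real.smoothTransition.contDiff.comp (by fun_prop)

theorem th_le (T : ℝ) (n : ℕ) (t : ℝ) : |th T n t| ≤ 1 := by
  rw [th, abs_of_nonneg (Real.smoothTransition.nonneg _)]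
  exact Real.smoothTransition.le_one _

theorem th_one {T : ℝ} {n : ℕ} {t : ℝ} (h : 2 ≤ n * (T - t)) : th T n t = 1 :=
  Real.smoothTransition.one_of_one_le (by linarith)

theorem th_zero {T : ℝ} {n : ℕ} {t : ℝ} (h : n * (T - t) ≤ 1) : th T n t = 0 :=
  Real.smoothTransition.zero_of_nonpos (by linarith)

theorem th_deriv (T : ℝ) (n : ℕ) (t : ℝ) :
    deriv (th T n) t = -(n * deriv Real.smoothTransition (n * (T - t) - 1)) := by
  have h1 : HasDerivAt Real.smoothTransition
      (deriv Real.smoothTransition (n * (T - t) - 1)) (n * (T - t) - 1) :=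
    (st_smooth.differentiable (by norm_num)).differentiableAt.hasDerivAt
  have h2 : HasDerivAt (fun s : ℝ => n * (T - s) - 1) (-(n : ℝ)) t := by
    have h3 := (((hasDerivAt_id t).const_sub T).const_mul (n : ℝ)).sub_const 1
    refine h3.congr_deriv ?_
    ring
  have h4 := (h1.comp t h2).deriv
  have e : th T n = Real.smoothTransition ∘ fun s : ℝ => (n : ℝ) * (T - s) - 1 := rfl
  rw [e, h4]
  ring

/-- The derivative of the transition function, times `|s| + 1`, is bounded. -/
theorem st_bd : ∃ C : ℝ, 0 ≤ C ∧ ∀ s, |s + 1| * |deriv Real.smoothTransition s| ≤ C := by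
  have hd : Continuous (deriv Real.smoothTransition) :=
    st_smooth.continuous_deriv (by norm_cast)
  obtain ⟨C, hC⟩ := (isCompact_Icc (a := (-1 : ℝ)) (b := 2)).exists_bound_of_continuousOn
    (show Continuous fun s : ℝ => (s + 1) * deriv Real.smoothTransition s from
      (continuous_id.add continuous_const).mul hd).continuousOn
  refine ⟨C, (norm_nonneg _).trans (hC 0 (by norm_num)), fun s => ?_⟩
  by_cases hs : s ∈ Icc (-1 : ℝ) 2
  · have := hC s hs
    rwa [Real.norm_eq_abs, abs_mul] at this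
  · have h0 : deriv Real.smoothTransition s = 0 := by
      rw [mem_Icc, not_and_or, not_le, not_le] at hs
      rcases hs with h | h
      · have e : Real.smoothTransition =ᶠ[𝓝 s] fun _ => 0 := by
          filter_upwards [Iio_mem_nhds h] with r hr
          exact Real.smoothTransition.zero_of_nonpos (by
            have : r < -1 := hr
            linarith)
        rw [e.deriv_eq, deriv_const]
      · have e : Real.smoothTransition =ᶠ[𝓝 s] fun _ => 1 := by
          filter_upwards [Ioi_mem_nhds h] with r hr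
          exact Real.smoothTransition.one_of_one_le (by
            have : 2 < r := hr
            linarith)
        rw [e.deriv_eq, deriv_const]
    rw [h0, abs_zero, mul_zero]
    exact (norm_nonneg _).trans (hC 0 (by norm_num))

/-- `χ θₙ'` is bounded if `χ T = 0`. -/
theorem th_bd {T : ℝ} (hT : 0 < T) {χ : ℝ → ℝ} (hχ : ContDiff ℝ ∞ χ) (h0 : χ T = 0) :
    ∃ C : ℝ, ∀ n t, t ∈ Ioo 0 T → |χ t * deriv (th T n) t| ≤ C := by
  have hd : Continuous (deriv χ) := hχ.continuous_deriv (by norm_cast)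
  obtain ⟨L, hL⟩ := (isCompact_Icc (a := (0 : ℝ)) (b := T)).exists_bound_of_continuousOn
    hd.continuousOn
  have hL0 : 0 ≤ L := (norm_nonneg _).trans (hL 0 ⟨le_rfl, hT.le⟩)
  obtain ⟨C, hC0, hC⟩ := st_bd
  have h1 : ∀ t ∈ Ioo 0 T, |χ t| ≤ L * (T - t) := by
    intro t ht
    have h2 := (convex_Icc (0 : ℝ) T).norm_image_sub_le_of_norm_deriv_le (f := χ) (C := L)
      (fun x _ => (hχ.differentiable (by norm_num)).differentiableAt) (fun x hx => hL x hx)
      ⟨hT.le, le_rfl⟩ ⟨ht.1.le, ht.2.le⟩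
    rw [h0, sub_zero, Real.norm_eq_abs, Real.norm_eq_abs, abs_sub_comm,
      abs_of_pos (sub_pos.2 ht.2)] at h2
    exact h2
  refine ⟨L * C, fun n t ht => ?_⟩
  have hn : (0 : ℝ) ≤ n := Nat.cast_nonneg n
  rw [th_deriv, abs_mul, abs_neg, abs_mul, abs_of_nonneg hn]
  have h3 := hC (n * (T - t) - 1)
  rw [sub_add_cancel, abs_of_nonneg (mul_nonneg (Nat.cast_nonneg n) (sub_pos.2 ht.2).le)] at h3
  calc |χ t| * (n * |deriv Real.smoothTransition (n * (T - t) - 1)|)
      ≤ L * (T - t) * (n * |deriv Real.smoothTransition (n * (T - t) - 1)|) :=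
        mul_le_mul_of_nonneg_right (h1 t ht) (by positivity)
    _ = L * (n * (T - t) * |deriv Real.smoothTransition (n * (T - t) - 1)|) := by ring
    _ ≤ L * C := mul_le_mul_of_nonneg_left h3 hL0

variable {ν T : ℝ} {c : Cf} {v : ℝ → V → V}

/-- The weak formulation for `χ` with `χ T = 0`. -/
theorem weak_zero (hT : 0 < T) (hV : VW ν T c v) {χ : ℝ → ℝ} {φ : V → V} (hχ : ContDiff ℝ ∞ χ)
    (h0 : χ T = 0) (hφ : ContDiff ℝ ∞ φ) (hp : Per φ)
    (hd : ∀ x, ∑ i, pd i (fun y => φ y i) x = 0) :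
    χ 0 * (∑ i, pr c i (fun x => φ x i)) + ∫ z in Ioo 0 T ×ˢ cube, wk ν v χ φ z = 0 := by
  obtain ⟨C, hC⟩ := th_bd hT hχ h0
  have hint := wk_int (ν := ν) hV.meas hV.sq hχ hφ hp
  have hlin := (wk_ints (ν := ν) hV.meas hV.sq hφ hp).1
  -- the functions
  have hw : ∀ n z, wk ν v (fun t => χ t * th T n t) φ z = th T n z.1 * wk ν v χ φ z
      + χ z.1 * deriv (th T n) z.1 * (∑ i, v z.1 z.2 i * φ z.2 i) := by
    intro n z
    have h1 : deriv (fun t => χ t * th T n t) z.1
        = deriv χ z.1 * th T n z.1 + χ z.1 * deriv (th T n) z.1 :=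
      deriv_fun_mul ((hχ.differentiable (by norm_num)).differentiableAt)
        (((th_smooth T n).differentiable (by norm_num)).differentiableAt)
    unfold wk
    simp only [h1]
    ring
  have hlim : Tendsto (fun n => ∫ z in Ioo 0 T ×ˢ cube, wk ν v (fun t => χ t * th T n t) φ z) atTop
      (𝓝 (∫ z in Ioo 0 T ×ˢ cube, wk ν v χ φ z)) := by
    refine tendsto_integral_of_dominated_convergence
      (fun z => ‖wk ν v χ φ z‖ + C * ‖∑ i, v z.1 z.2 i * φ z.2 i‖) (fun n => ?_)
      (hint.norm.add (hlin.norm.const_mul C)) (fun n => ?_) ?_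
    · exact (wk_int (ν := ν) hV.meas hV.sq (hχ.mul (th_smooth T n)) hφ hp).aestronglyMeasurable
    · filter_upwards [ae_restrict_mem (boxm 0 T)] with z hz
      rw [hw]
      refine (norm_add_le _ _).trans (add_le_add ?_ ?_)
      · rw [norm_mul, Real.norm_eq_abs]
        exact mul_le_of_le_one_left (norm_nonneg _) (th_le T n z.1)
      · rw [norm_mul]
        exact mul_le_mul_of_nonneg_right (hC n z.1 hz.1) (norm_nonneg _)
    · filter_upwards [ae_restrict_mem (boxm 0 T)] with z hz
      refine tendsto_const_nhds.congr' ?_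
      have hz' : 0 < T - z.1 := sub_pos.2 hz.1.2
      filter_upwards [eventually_gt_atTop ⌈2 / (T - z.1)⌉₊] with n hn
      have hn' : 2 < n * (T - z.1) := by
        have h1 : 2 / (T - z.1) < n := (Nat.le_ceil _).trans_lt (by exact_mod_cast hn)
        rwa [div_lt_iff₀ hz'] at h1
      have h2 : th T n =ᶠ[𝓝 z.1] fun _ => 1 := by
        have h3 : Continuous fun t : ℝ => n * (T - t) := by fun_prop
        filter_upwards [h3.continuousAt.eventually (lt_mem_nhds hn')] with t ht
        exact th_one ht.le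
      rw [hw, h2.deriv_eq, deriv_const, th_one hn'.le, one_mul, mul_zero, zero_mul, add_zero]
  have hev : ∀ᶠ n : ℕ in atTop, χ 0 * (∑ i, pr c i (fun x => φ x i))
      + ∫ z in Ioo 0 T ×ˢ cube, wk ν v (fun t => χ t * th T n t) φ z = 0 := by
    filter_upwards [eventually_gt_atTop ⌈2 / T⌉₊] with n hn
    have hn' : 2 < n * T := by
      have h1 : 2 / T < n := (Nat.le_ceil _).trans_lt (by exact_mod_cast hn)
      rwa [div_lt_iff₀ hT] at h1
    have hn0 : (0 : ℝ) < n := by
      have : ¬ (n : ℝ) ≤ 0 := fun h => by nlinarith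
      exact not_le.1 this
    have h2 := hV.weak (fun t => χ t * th T n t) φ (hχ.mul (th_smooth T n))
      ⟨T - 1 / n, sub_lt_self T (by positivity), fun t ht => by
        rw [th_zero, mul_zero]
        have h3 : T - t ≤ 1 / n := by linarith
        rwa [le_div_iff₀ hn0, mul_comm] at h3⟩ hφ hp hd
    have h4 : th T n 0 = 1 := th_one (by
      rw [sub_zero]
      exact hn'.le)
    simp only [h4, mul_one] at h2
    exact h2
  have h5 := (hlim.const_add (χ 0 * ∑ i, pr c i (fun x => φ x i)))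
  have h6 : Tendsto (fun _ : ℕ => (0 : ℝ)) atTop (𝓝 (χ 0 * (∑ i, pr c i (fun x => φ x i))
      + ∫ z in Ioo 0 T ×ˢ cube, wk ν v χ φ z)) := h5.congr' hev
  exact tendsto_nhds_unique h6 tendsto_const_nhds

/-- The weak formulation for all `χ`. -/
theorem weak_end (hT : 0 < T) (hV : VW ν T c v) {χ : ℝ → ℝ} {φ : V → V} (hχ : ContDiff ℝ ∞ χ)
    (hφ : ContDiff ℝ ∞ φ) (hp : Per φ) (hd : ∀ x, ∑ i, pd i (fun y => φ y i) x = 0) :
    χ 0 * (∑ i, pr c i (fun x => φ x i)) + ∫ z in Ioo 0 T ×ˢ cube, wk ν v χ φ z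
      = χ T * ((∑ i, pr c i (fun x => φ x i)) + ∫ z in Ioo 0 T ×ˢ cube, gg ν v φ z) := by
  have h1 := weak_zero hT hV (χ := fun t => χ t - χ T) (hχ.sub contDiff_const) (sub_self _) hφ hp hd
  have i1 := wk_int (ν := ν) hV.meas hV.sq hχ hφ hp
  have i2 := (wk_ints (ν := ν) hV.meas hV.sq hφ hp).2
  have e : ∀ z, wk ν v (fun t => χ t - χ T) φ z = wk ν v χ φ z - χ T * gg ν v φ z := by
    intro z
    unfold wk gg
    simp only [deriv_sub_const]
    ring
  simp only [e] at h1
  rw [integral_sub i1 (i2.const_mul _), integral_const_mul] at h1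
  linarith

end Pool.Agent.Run7.h219.HP
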