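import Pool.Agent.Run7.h219.HP.End1
import Pool.Agent.Run7.h744.WQ.SeqQ
import Pool.Agent.Run7.h744.GS.P9
import Pool.Agent.H459R3.NS.Phys2

/-!
The end value of a very weak solution (piece End), part 2: the end value and its pairing.
-/

set_option autoImplicit false

open MeasureTheory Set Filter Topology
open scoped ContDiff ENNReal ComplexConjugate

namespace Pool.Agent.Run7.h219.HP

open H459R3.NS Pool.Agent.Run7.h782 Pool.Agent.Run7.h782.GD Pool.Agent.Run7.h782.GS
open Pool.Agent.Run7.h782.WS Pool.Agent.Run7.h782.WQ Pool.Agent.Run7.h744.WS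
open Pool.Agent.Run7.h969.WS Pool.Agent.Run7.h219.OS
open Pool.Agent.Run7.h782.OS Run7.h475.WS
open Pool.Agent.Run7.h219.WQ (mu int_u int_uu int_cont_mul)

/-! ### Parseval's formula for integrable functions -/

/-- The Fourier coefficients of a function on space-time, integrated over time. -/
noncomputable def cf (T : ℝ) (w : ℝ × V → ℝ) (k : K3) : ℂ := ∫ z, ee (-k) z.2 * (w z : ℂ) ∂(mu T)

theorem cf_neg (T : ℝ) (w : ℝ × V → ℝ) (k : K3) : cf T w (-k) = conj (cf T w k) := by
  rw [cf, cf, ← integral_conj]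
  refine integral_congr_ae (Eventually.of_forall fun z => ?_)
  show ee (- -k) z.2 * (w z : ℂ) = conj _
  rw [map_mul, Complex.conj_ofReal, ← ee_neg]

theorem cf_le (T : ℝ) (w : ℝ × V → ℝ) (k : K3) : ‖cf T w k‖ ≤ ∫ z, |w z| ∂(mu T) := by
  refine (norm_integral_le_integral_norm _).trans (le_of_eq ?_)
  refine integral_congr_ae (Eventually.of_forall fun z => ?_)
  show ‖ee (-k) z.2 * (w z : ℂ)‖ = |w z|
  rw [norm_mul, norm_ee, one_mul, Complex.norm_real, Real.norm_eq_abs]

theorem pars {T : ℝ} {w : ℝ × V → ℝ} (hw : Integrable w (mu T)) {φ : V → ℝ} (hφ : SP φ) :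
    HasSum (fun k => cf T w k * conj (fr φ k)) ((∫ z, w z * φ z.2 ∂(mu T) : ℝ) : ℂ) := by
  have hs : Summable (fr φ) := (rap_fr hφ).summable
  have h1 : ∀ k, Integrable (fun z : ℝ × V => ee (-k) z.2 * (w z : ℂ) * conj (fr φ k)) (mu T) :=
    fun k => (int_cont_mul (f := fun z : ℝ × V => ee (-k) z.2)
      ((ee_continuous _).comp continuous_snd) hw).mul_const _
  have h2 : ∀ k, ∫ z, ‖ee (-k) z.2 * (w z : ℂ) * conj (fr φ k)‖ ∂(mu T)
      = (∫ z, |w z| ∂(mu T)) * ‖fr φ k‖ := by
    intro k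
    rw [← integral_mul_const]
    refine integral_congr_ae (Eventually.of_forall fun z => ?_)
    show ‖ee (-k) z.2 * (w z : ℂ) * conj (fr φ k)‖ = |w z| * ‖fr φ k‖
    rw [norm_mul, norm_mul, norm_ee, one_mul, Complex.norm_real, RCLike.norm_conj,
      Real.norm_eq_abs]
  have h3 := hasSum_integral_of_summable_integral_norm h1 (by
    simp_rw [h2]
    exact hs.norm.mul_left _)
  have e1 : (fun k => ∫ z, ee (-k) z.2 * (w z : ℂ) * conj (fr φ k) ∂(mu T))
      = fun k => cf T w k * conj (fr φ k) := funext fun k => integral_mul_const _ _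
  have e2 : (∫ z, ∑' k, ee (-k) z.2 * (w z : ℂ) * conj (fr φ k) ∂(mu T))
      = ((∫ z, w z * φ z.2 ∂(mu T) : ℝ) : ℂ) := by
    rw [← integral_complex_ofReal]
    refine integral_congr_ae (Eventually.of_forall fun z => ?_)
    have h4 : HasSum (fun k => fr φ k * ee k z.2) (φ z.2 : ℂ) :=
      hasSum_fc (per_ofReal hφ.per) (Complex.continuous_ofReal.comp hφ.cont) hs z.2
    have h5 := ((Complex.hasSum_conj').2 h4).mul_left (w z : ℂ)
    have e3 : (fun k => (w z : ℂ) * conj (fr φ k * ee k z.2))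
        = fun k => ee (-k) z.2 * (w z : ℂ) * conj (fr φ k) := by
      funext k
      rw [map_mul, ← ee_neg]
      ring
    rw [e3] at h5
    show ∑' k, ee (-k) z.2 * (w z : ℂ) * conj (fr φ k) = ((w z * φ z.2 : ℝ) : ℂ)
    rw [h5.tsum_eq, Complex.conj_ofReal, Complex.ofReal_mul]
  rw [e1, e2] at h3
  exact h3

/-- Polynomially growing coefficients can be paired with smooth functions. -/
theorem pr_sum {c : Cf} {C : ℝ} {m : ℕ} (hc : ∀ k, ‖c k‖ ≤ C * (1 + len k) ^ m) {φ : V → ℝ}
    (hφ : SP φ) (i : Fin 3) : Summable fun k => c k i * conj (fr φ k) := by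
  have h0 := rap_fr hφ 0
  have h1 := rap_fr hφ m
  have hC : 0 ≤ C := by
    have := (norm_nonneg _).trans (hc 0)
    rw [len_zero, add_zero, one_pow, mul_one] at this
    exact this
  refine Summable.of_norm_bounded ((h0.add h1).mul_left (C * 3 ^ m)) fun k => ?_
  rw [norm_mul, RCLike.norm_conj, pow_zero, one_mul]
  have hN : (0 : ℝ) ≤ N k := Nat.cast_nonneg _
  have h2 : (1 + len k) ^ m ≤ 3 ^ m * (1 + (N k : ℝ) ^ m) := by
    have h3 := h744.GS.len_le_N k
    rcases le_total (N k : ℝ) 1 with h | h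
    · calc (1 + len k) ^ m ≤ 3 ^ m :=
            pow_le_pow_left₀ (by linarith [len_nonneg k]) (by linarith) m
        _ ≤ 3 ^ m * (1 + (N k : ℝ) ^ m) :=
            le_mul_of_one_le_right (by positivity) (by linarith [pow_nonneg hN m])
    · calc (1 + len k) ^ m ≤ (3 * (N k : ℝ)) ^ m :=
            pow_le_pow_left₀ (by linarith [len_nonneg k]) (by linarith) m
        _ = 3 ^ m * (N k : ℝ) ^ m := mul_pow _ _ _
        _ ≤ 3 ^ m * (1 + (N k : ℝ) ^ m) :=
            mul_le_mul_of_nonneg_left (by linarith) (by positivity)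
  calc ‖c k i‖ * ‖fr φ k‖ ≤ (C * (3 ^ m * (1 + (N k : ℝ) ^ m))) * ‖fr φ k‖ :=
        mul_le_mul_of_nonneg_right ((norm_le_pi_norm (c k) i).trans ((hc k).trans
          (mul_le_mul_of_nonneg_left h2 hC))) (norm_nonneg _)
    _ = C * 3 ^ m * (‖fr φ k‖ + (N k : ℝ) ^ m * ‖fr φ k‖) := by ring

/-! ### The end value -/

/-- The coefficients of the integral of `v` over time. -/
noncomputable def mE (T : ℝ) (v : ℝ → V → V) (k : K3) : C3 := fun i => cf T (fun z => v z.1 z.2 i) k

/-- The coefficients of the integral of `v ⊗ v` over time. -/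
noncomputable def sE (T : ℝ) (v : ℝ → V → V) : Mf := fun i j k =>
  cf T (fun z => v z.1 z.2 i * v z.1 z.2 j) k

/-- The end value. -/
noncomputable def cE (ν T : ℝ) (c : Cf) (v : ℝ → V → V) : Cf := fun k =>
  c k - (lam ν k : ℂ) • prj k (mE T v k) - dvr (sE T v) k

theorem sE_sy (T : ℝ) (v : ℝ → V → V) : Sy (sE T v) :=
  ⟨fun i j k => by
    unfold sE
    congr 1
    funext z
    rw [mul_comm], fun i j k => cf_neg T _ k⟩

variable {ν T : ℝ} {c : Cf} {v : ℝ → V → V}

theorem cE_zero (ν T : ℝ) (c : Cf) (v : ℝ → V → V) : cE ν T c v 0 = c 0 := by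
  have h : lam ν 0 = 0 := by simp [lam, GD.sq]
  rw [cE, h744.WQ.dvr_zero_mode, h]
  simp

theorem cE_herm (hc : Herm c) : Herm (cE ν T c v) := by
  intro k i
  have h1 : lam ν (-k) = lam ν k := by rw [lam, lam, GD.sq_neg]
  have h2 := h744.WQ.herm_dvr (sE_sy T v) k i
  have h3 := congrFun (prj_neg_conj k (mE T v k)) i
  have h4 : mE T v (-k) = fun i => conj (mE T v k i) := funext fun i => cf_neg T _ k
  simp only [cE, Pi.sub_apply, Pi.smul_apply, smul_eq_mul, map_sub, map_mul, Complex.conj_ofReal]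
  rw [h1, h2, h4, hc k i]
  rw [h3]

theorem cE_dv (hc : Dv c) : Dv (cE ν T c v) := by
  intro k
  have h1 := h744.WQ.dv_dvr (sE T v) k
  have h2 := kd_prj k (mE T v k)
  have e : kd k (cE ν T c v k) = kd k (c k) - (lam ν k : ℂ) * kd k (prj k (mE T v k))
      - kd k (dvr (sE T v) k) := by
    simp only [kd, cE, Pi.sub_apply, Pi.smul_apply, smul_eq_mul, mul_sub, Finset.sum_sub_distrib,
      Finset.mul_sum]
    congr 2
    refine Finset.sum_congr rfl fun j _ => ?_
    ring
  rw [e, hc k, h1, h2, mul_zero, sub_zero, sub_zero]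

end Pool.Agent.Run7.h219.HP
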