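import Pool.Agent.Run7.h219.HP.End2
import Pool.Agent.Run7.h969.GD.Tgt1

/-!
The end value of a very weak solution (piece End), part 3: the pairing with divergence free fields.
-/

set_option autoImplicit false

open MeasureTheory Set Filter Topology
open scoped ContDiff ENNReal ComplexConjugate

namespace Pool.Agent.Run7.h219.HP

open H459R3.NS Pool.Agent.Run7.h782 Pool.Agent.Run7.h782.GD Pool.Agent.Run7.h782.GS
open Pool.Agent.Run7.h782.WS Pool.Agent.Run7.h782.WQ Pool.Agent.Run7.h744.WS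
open Pool.Agent.Run7.h969.WS Pool.Agent.Run7.h219.OS
open Pool.Agent.Run7.h782.OS Run7.h475.WS
open Pool.Agent.Run7.h219.WQ (mu int_u int_uu int_cont_mul)

variable {ν T : ℝ} {c : Cf} {v : ℝ → V → V}

/-- Growth of the end value. -/
theorem cE_grow (hc : ∃ (C : ℝ) (m : ℕ), ∀ k, ‖c k‖ ≤ C * (1 + len k) ^ m) :
    ∃ (C : ℝ) (m : ℕ), ∀ k, ‖cE ν T c v k‖ ≤ C * (1 + len k) ^ m := by
  obtain ⟨C, m, hC⟩ := hc
  have hC0 : 0 ≤ C := by
    have := (norm_nonneg _).trans (hC 0)
    rw [len_zero, add_zero, one_pow, mul_one] at this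
    exact this
  set A : ℝ := ∑ i, ∫ z, |v z.1 z.2 i| ∂(mu T) with hA
  set B : ℝ := ∑ i, ∑ j, ∫ z, |v z.1 z.2 i * v z.1 z.2 j| ∂(mu T) with hB
  have hA0 : 0 ≤ A := Finset.sum_nonneg fun _ _ => integral_nonneg fun _ => abs_nonneg _
  have hB0 : 0 ≤ B := Finset.sum_nonneg fun _ _ => Finset.sum_nonneg fun _ _ =>
    integral_nonneg fun _ => abs_nonneg _
  have hm : ∀ k, ‖mE T v k‖ ≤ A := fun k => (pi_norm_le_iff_of_nonneg hA0).2 fun i =>
    (cf_le T _ k).trans (Finset.single_le_sum (f := fun i => ∫ z, |v z.1 z.2 i| ∂(mu T))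
      (fun _ _ => integral_nonneg fun _ => abs_nonneg _) (Finset.mem_univ i))
  have hs : ∀ k, ‖dvr (sE T v) k‖ ≤ 2 * Real.pi * (4 * (len k * B)) := by
    intro k
    rw [dvr, norm_smul]
    have h1 : ‖(2 * Real.pi * Complex.I : ℂ)‖ = 2 * Real.pi := by
      simp [abs_of_pos Real.pi_pos]
    rw [h1]
    refine mul_le_mul_of_nonneg_left ((norm_prj_le k _).trans
      (mul_le_mul_of_nonneg_left ?_ (by norm_num))) (by positivity)
    refine (pi_norm_le_iff_of_nonneg (mul_nonneg (len_nonneg k) hB0)).2 fun i => ?_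
    refine (norm_sum_le _ _).trans ?_
    have h2 : ∀ j : Fin 3, ‖(k j : ℂ) * sE T v i j k‖
        ≤ len k * ∫ z, |v z.1 z.2 i * v z.1 z.2 j| ∂(mu T) := by
      intro j
      rw [norm_mul]
      refine mul_le_mul ?_ (cf_le T _ k) (norm_nonneg _) (len_nonneg k)
      rw [Complex.norm_intCast]
      exact abs_le_len k j
    refine (Finset.sum_le_sum fun j _ => h2 j).trans ?_
    rw [← Finset.mul_sum]
    refine mul_le_mul_of_nonneg_left ?_ (len_nonneg k)
    exact Finset.single_le_sum (f := fun i => ∑ j, ∫ z, |v z.1 z.2 i * v z.1 z.2 j| ∂(mu T))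
      (fun _ _ => Finset.sum_nonneg fun _ _ => integral_nonneg fun _ => abs_nonneg _)
      (Finset.mem_univ i)
  refine ⟨C + 4 * Real.pi ^ 2 * |ν| * (4 * A) + 8 * Real.pi * B, m + 2, fun k => ?_⟩
  have hl := len_nonneg k
  have h1 : (1 : ℝ) ≤ 1 + len k := by linarith
  have hp : (1 + len k) ^ m ≤ (1 + len k) ^ (m + 2) := pow_le_pow_right₀ h1 (by omega)
  have hp2 : len k ^ 2 ≤ (1 + len k) ^ (m + 2) :=
    (pow_le_pow_left₀ hl (by linarith) 2).trans (pow_le_pow_right₀ h1 (by omega))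
  have hp1 : len k ≤ (1 + len k) ^ (m + 2) := by
    have : (1 + len k) ^ 1 ≤ (1 + len k) ^ (m + 2) := pow_le_pow_right₀ h1 (by omega)
    linarith
  have hlam : ‖(lam ν k : ℂ)‖ = 4 * Real.pi ^ 2 * |ν| * len k ^ 2 := by
    rw [Complex.norm_real, Real.norm_eq_abs, lam, len_sq, abs_mul, abs_mul, abs_mul,
      abs_of_nonneg (sq_nonneg' k)]
    simp
  have h3 : ‖cE ν T c v k‖ ≤ ‖c k‖ + ‖(lam ν k : ℂ) • prj k (mE T v k)‖ + ‖dvr (sE T v) k‖ :=
    (norm_sub_le _ _).trans (add_le_add_left (norm_sub_le _ _) _)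
  have h4 : ‖(lam ν k : ℂ) • prj k (mE T v k)‖ ≤ 4 * Real.pi ^ 2 * |ν| * len k ^ 2 * (4 * A) := by
    rw [norm_smul, hlam]
    exact mul_le_mul_of_nonneg_left ((norm_prj_le k _).trans
      (mul_le_mul_of_nonneg_left (hm k) (by norm_num))) (by positivity)
  have h5 : C * (1 + len k) ^ m ≤ C * (1 + len k) ^ (m + 2) := mul_le_mul_of_nonneg_left hp hC0
  have h6 : 4 * Real.pi ^ 2 * |ν| * len k ^ 2 * (4 * A)
      ≤ 4 * Real.pi ^ 2 * |ν| * (4 * A) * (1 + len k) ^ (m + 2) := by
    have := mul_le_mul_of_nonneg_left hp2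
      (show (0 : ℝ) ≤ 4 * Real.pi ^ 2 * |ν| * (4 * A) by positivity)
    linarith
  have h7 : 2 * Real.pi * (4 * (len k * B)) ≤ 8 * Real.pi * B * (1 + len k) ^ (m + 2) := by
    have := mul_le_mul_of_nonneg_left hp1 (show (0 : ℝ) ≤ 8 * Real.pi * B by positivity)
    linarith
  calc ‖cE ν T c v k‖ ≤ C * (1 + len k) ^ m + 4 * Real.pi ^ 2 * |ν| * len k ^ 2 * (4 * A)
        + 2 * Real.pi * (4 * (len k * B)) := by
        linarith [hC k, hs k]
    _ ≤ _ := by
        rw [add_mul, add_mul]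
        linarith

theorem cE_dis (hc : Dis c) : Dis (cE ν T c v) := ⟨cE_herm hc.herm, cE_dv hc.dv, cE_grow hc.grow⟩

/-- The pairing of the end value. -/
theorem pair_end (hc : Dis c) (hV : VW ν T c v) {φ : V → V} (hφ : ContDiff ℝ ∞ φ) (hp : Per φ)
    (hd : ∀ x, ∑ i, pd i (fun y => φ y i) x = 0) :
    ∑ i, pr (cE ν T c v) i (fun x => φ x i) = (∑ i, pr c i (fun x => φ x i))
      + ∫ z in Ioo 0 T ×ˢ cube, gg ν v φ z := by
  have hsp : ∀ i, SP (fun y => φ y i) := fun i => sp_φ hφ hp i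
  have hkd : ∀ k, ∑ i, (k i : ℂ) * fr (fun y => φ y i) k = 0 := fun k =>
    fr_div (v := fun i y => φ y i) hsp hd k
  have hkc : ∀ k, ∑ i, (k i : ℂ) * conj (fr (fun y => φ y i) k) = 0 := by
    intro k
    have := congrArg conj (hkd k)
    rw [map_zero, map_sum] at this
    rw [← this]
    refine Finset.sum_congr rfl fun i _ => ?_
    rw [map_mul, map_intCast]
  -- the integral
  have hm := fun i => pars (int_u hV i) ((hsp i).lap)
  have hs := fun i j => pars (int_uu hV i j) ((hsp j).pd i)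
  have hg : HasSum (fun k => (∑ i, ∑ j, sE T v i j k * conj (fr (pd i fun y => φ y j) k))
      + (ν : ℂ) * ∑ i, mE T v k i * conj (fr (lap fun y => φ y i) k))
      ((∫ z in Ioo 0 T ×ˢ cube, gg ν v φ z : ℝ) : ℂ) := by
    have h1 := (hasSum_sum (s := Finset.univ) fun (i : Fin 3) _ =>
      hasSum_sum (s := Finset.univ) fun (j : Fin 3) _ => hs i j).add
      ((hasSum_sum (s := Finset.univ) fun (i : Fin 3) _ => hm i).mul_left (ν : ℂ))
    have hlin := fun i => lin_int (hV.meas i) (hV.sq i)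
    have e : (∫ z in Ioo 0 T ×ˢ cube, gg ν v φ z)
        = (∑ i, ∑ j, ∫ z, v z.1 z.2 i * v z.1 z.2 j * pd i (fun y => φ y j) z.2 ∂(mu T))
          + ν * ∑ i, ∫ z, v z.1 z.2 i * lap (fun y => φ y i) z.2 ∂(mu T) := by
      have j1 : ∀ i j, IntegrableOn (fun z : ℝ × V => v z.1 z.2 i * v z.1 z.2 j
          * pd i (fun y => φ y j) z.2) (Ioo 0 T ×ˢ cube) := fun i j =>
        mul_int (ψ := fun z : ℝ × V => pd i (fun y => φ y j) z.2)
          (prod_int (hV.meas i) (hV.meas j) (hV.sq i) (hV.sq j))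
          (((hsp j).pd i).cont.comp continuous_snd)
      have j2 : ∀ i, IntegrableOn (fun z : ℝ × V => v z.1 z.2 i
          * ∑ j, pd j (pd j (fun y => φ y i)) z.2) (Ioo 0 T ×ˢ cube) := fun i =>
        mul_int (ψ := fun z : ℝ × V => ∑ j, pd j (pd j (fun y => φ y i)) z.2) (hlin i)
          ((continuous_finsetSum _ fun j _ => (((hsp i).pd j).pd j).cont).comp continuous_snd)
      show ∫ z in Ioo 0 T ×ˢ cube, ((∑ i, ∑ j, v z.1 z.2 i * v z.1 z.2 j
        * pd i (fun y => φ y j) z.2) + ν * ∑ i, v z.1 z.2 i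
          * ∑ j, pd j (pd j (fun y => φ y i)) z.2) = _
      rw [integral_add (integrable_finsetSum _ fun i _ => integrable_finsetSum _ fun j _ => j1 i j)
        ((integrable_finsetSum _ fun i _ => j2 i).const_mul ν), integral_const_mul,
        integral_finsetSum _ (fun i _ => integrable_finsetSum _ fun j _ => j1 i j),
        integral_finsetSum _ (fun i _ => j2 i)]
      congr 1
      exact Finset.sum_congr rfl fun i _ => integral_finsetSum _ (fun j _ => j1 i j)
    rw [e]
    push_cast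
    exact h1
  -- the coefficients
  have e1 : ∀ i j k, conj (fr (pd i fun y => φ y j) k)
      = -(2 * Real.pi * Complex.I * (k i : ℂ)) * conj (fr (fun y => φ y j) k) := by
    intro i j k
    have h1 := congrFun (fr_pd (hsp j) i) k
    rw [h1, D, map_mul]
    simp only [map_mul, Complex.conj_I, Complex.conj_ofReal, map_ofNat, map_intCast]
    ring
  have e2 : ∀ i k, (ν : ℂ) * conj (fr (lap fun y => φ y i) k)
      = -(lam ν k : ℂ) * conj (fr (fun y => φ y i) k) := by
    intro i k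
    rw [h969.GD.fr_lap (hsp i), lam]
    simp only [map_mul, map_neg, Complex.conj_ofReal, map_ofNat, map_pow]
    push_cast
    ring
  have e3 : ∀ (k : K3) (w : C3), ∑ i, prj k w i * conj (fr (fun y => φ y i) k)
      = ∑ i, w i * conj (fr (fun y => φ y i) k) := by
    intro k w
    have h1 : ∀ i, prj k w i * conj (fr (fun y => φ y i) k) = w i * conj (fr (fun y => φ y i) k)
        - kd k w / (GD.sq k : ℂ) * ((k i : ℂ) * conj (fr (fun y => φ y i) k)) := by
      intro i
      rw [prj]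
      ring
    rw [Finset.sum_congr rfl fun i _ => h1 i, Finset.sum_sub_distrib, ← Finset.mul_sum, hkc k,
      mul_zero, sub_zero]
  have key : ∀ k, ∑ i, cE ν T c v k i * conj (fr (fun y => φ y i) k)
      = (∑ i, c k i * conj (fr (fun y => φ y i) k))
        + ((∑ i, ∑ j, sE T v i j k * conj (fr (pd i fun y => φ y j) k))
          + (ν : ℂ) * ∑ i, mE T v k i * conj (fr (lap fun y => φ y i) k)) := by
    intro k
    have h1 : ∀ i, cE ν T c v k i * conj (fr (fun y => φ y i) k)
        = c k i * conj (fr (fun y => φ y i) k)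
          - (lam ν k : ℂ) * (prj k (mE T v k) i * conj (fr (fun y => φ y i) k))
          - (2 * Real.pi * Complex.I : ℂ)
            * (prj k (fun i => ∑ j, (k j : ℂ) * sE T v i j k) i
              * conj (fr (fun y => φ y i) k)) := by
      intro i
      simp only [cE, dvr, Pi.sub_apply, Pi.smul_apply, smul_eq_mul]
      ring
    rw [Finset.sum_congr rfl fun i _ => h1 i, Finset.sum_sub_distrib, Finset.sum_sub_distrib,
      ← Finset.mul_sum, ← Finset.mul_sum, e3, e3]
    have h2 : (ν : ℂ) * ∑ i, mE T v k i * conj (fr (lap fun y => φ y i) k)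
        = -((lam ν k : ℂ) * ∑ i, mE T v k i * conj (fr (fun y => φ y i) k)) := by
      rw [Finset.mul_sum, Finset.mul_sum, ← Finset.sum_neg_distrib]
      refine Finset.sum_congr rfl fun i _ => ?_
      have := e2 i k
      linear_combination mE T v k i * this
    have h3 : ∑ i, ∑ j, sE T v i j k * conj (fr (pd i fun y => φ y j) k)
        = -((2 * Real.pi * Complex.I : ℂ) * ∑ i, (∑ j, (k j : ℂ) * sE T v i j k)
          * conj (fr (fun y => φ y i) k)) := by
      rw [Finset.sum_comm, Finset.mul_sum, ← Finset.sum_neg_distrib]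
      refine Finset.sum_congr rfl fun i _ => ?_
      rw [Finset.sum_mul, Finset.mul_sum, ← Finset.sum_neg_distrib]
      refine Finset.sum_congr rfl fun j _ => ?_
      rw [e1, (sE_sy T v).sym j i k]
      ring
    rw [h2, h3]
    ring
  obtain ⟨C, m, hC⟩ := hc.grow
  obtain ⟨C', m', hC'⟩ := cE_grow (ν := ν) (T := T) (v := v) hc.grow
  have hc1 : HasSum (fun k => ∑ i, c k i * conj (fr (fun y => φ y i) k))
      (∑ i, ∑' k, c k i * conj (fr (fun y => φ y i) k)) :=
    hasSum_sum fun i _ => (pr_sum hC (hsp i) i).hasSum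
  have hc2 : HasSum (fun k => ∑ i, cE ν T c v k i * conj (fr (fun y => φ y i) k))
      (∑ i, ∑' k, cE ν T c v k i * conj (fr (fun y => φ y i) k)) :=
    hasSum_sum fun i _ => (pr_sum hC' (hsp i) i).hasSum
  have h4 := hc1.add hg
  rw [← funext key] at h4
  have h5 := congrArg Complex.re (hc2.unique h4)
  rw [Complex.re_sum, Complex.add_re, Complex.re_sum, Complex.ofReal_re] at h5
  exact h5

/-- The end formula. -/
theorem end_formula (hT : 0 < T) (hc : Dis c) (hV : VW ν T c v) {χ : ℝ → ℝ} {φ : V → V}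
    (hχ : ContDiff ℝ ∞ χ) (hφ : ContDiff ℝ ∞ φ) (hp : Per φ)
    (hd : ∀ x, ∑ i, pd i (fun y => φ y i) x = 0) :
    χ 0 * (∑ i, pr c i (fun x => φ x i)) - χ T * (∑ i, pr (cE ν T c v) i (fun x => φ x i))
      + ∫ z in Ioo 0 T ×ˢ cube, wk ν v χ φ z = 0 := by
  have h1 := weak_end hT hV hχ hφ hp hd
  rw [pair_end hc hV hφ hp hd]
  linarith

end Pool.Agent.Run7.h219.HP
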