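import Pool.Agent.Run7.h219.HP.End3
import Pool.Agent.Run7.h219.WQ.NecQ
import Pool.Agent.Run7.h744.WQ.NecB
import Pool.Agent.Run7.h969.HP.Defs2

/-!
The end value of a very weak solution (piece End), part 4: the end value is in the class of the
initial values.
-/

set_option autoImplicit false

open MeasureTheory Set Filter Topology
open scoped ContDiff ENNReal ComplexConjugate

namespace Pool.Agent.Run7.h219.HP

open H459R3.NS Pool.Agent.Run7.h782 Pool.Agent.Run7.h782.GD Pool.Agent.Run7.h782.GS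
open Pool.Agent.Run7.h782.WS Pool.Agent.Run7.h782.WQ Pool.Agent.Run7.h744.WS
open Pool.Agent.Run7.h969.WS Pool.Agent.Run7.h219.OS Pool.Agent.Run7.h969.HP
open Pool.Agent.Run7.h782.OS Run7.h475.WS
open Pool.Agent.Run7.h219.WQ (mu int_u int_uu int_cont_mul Ak Bk Bt Mk hk gc)

variable {ν T : ℝ} {c : Cf} {v : ℝ → V → V}

/-- The divergence condition for all functions of time. -/
theorem div_all (hV : VW ν T c v) {η : ℝ → ℝ} {φ : V → ℝ} (hη : ContDiff ℝ ∞ η)
    (hφ : ContDiff ℝ ∞ φ) (hp : Per φ) :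
    ∫ z in Ioo 0 T ×ˢ cube, η z.1 * ∑ i, v z.1 z.2 i * pd i φ z.2 = 0 := by
  have hSP : SP φ := ⟨hφ, hp⟩
  have k1 : IntegrableOn (fun z : ℝ × V => ∑ i, v z.1 z.2 i * pd i φ z.2) (Ioo 0 T ×ˢ cube) :=
    integrable_finsetSum _ fun i _ => mul_int (ψ := fun z : ℝ × V => pd i φ z.2)
      (lin_int (hV.meas i) (hV.sq i)) ((hSP.pd i).cont.comp continuous_snd)
  have k2 : ∀ η : ℝ → ℝ, Continuous η →
      IntegrableOn (fun z : ℝ × V => η z.1 * ∑ i, v z.1 z.2 i * pd i φ z.2)
        (Ioo 0 T ×ˢ cube) := by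
    intro η hη
    refine (mul_int (ψ := fun z : ℝ × V => η z.1) k1 (hη.comp continuous_fst)).congr ?_
    exact Eventually.of_forall fun z => mul_comm _ _
  have hlim : Tendsto (fun n => ∫ z in Ioo 0 T ×ˢ cube,
      (η z.1 * th T n z.1) * ∑ i, v z.1 z.2 i * pd i φ z.2) atTop
      (𝓝 (∫ z in Ioo 0 T ×ˢ cube, η z.1 * ∑ i, v z.1 z.2 i * pd i φ z.2)) := by
    refine tendsto_integral_of_dominated_convergence
      (fun z => ‖η z.1 * ∑ i, v z.1 z.2 i * pd i φ z.2‖) (fun n => ?_)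
      (k2 η hη.continuous).norm (fun n => ?_) ?_
    · exact (k2 _ (hη.continuous.mul (th_smooth T n).continuous)).aestronglyMeasurable
    · refine Eventually.of_forall fun z => ?_
      rw [norm_mul, norm_mul, norm_mul, Real.norm_eq_abs (th T n z.1), mul_assoc]
      refine mul_le_mul_of_nonneg_left ?_ (norm_nonneg _)
      exact mul_le_of_le_one_left (norm_nonneg _) (th_le T n z.1)
    · filter_upwards [ae_restrict_mem (boxm 0 T)] with z hz
      refine tendsto_const_nhds.congr' ?_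
      have hz' : 0 < T - z.1 := sub_pos.2 hz.1.2
      filter_upwards [eventually_gt_atTop ⌈2 / (T - z.1)⌉₊] with n hn
      have hn' : 2 < n * (T - z.1) := by
        have h1 : 2 / (T - z.1) < n := (Nat.le_ceil _).trans_lt (by exact_mod_cast hn)
        rwa [div_lt_iff₀ hz'] at h1
      rw [th_one hn'.le, mul_one]
  have h0 : ∀ n : ℕ, ∫ z in Ioo 0 T ×ˢ cube,
      (η z.1 * th T n z.1) * ∑ i, v z.1 z.2 i * pd i φ z.2 = 0 := fun n =>
    hV.div (fun t => η t * th T n t) φ (hη.mul (th_smooth T n)) (fun t ht => by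
      rw [th_zero, mul_zero]
      have h1 : (n : ℝ) * (T - t) ≤ 0 :=
        mul_nonpos_of_nonneg_of_nonpos (Nat.cast_nonneg n) (by linarith)
      linarith) hφ hp
  simp only [h0] at hlim
  exact (tendsto_nhds_unique hlim tendsto_const_nhds)

/-! ### Reflection in time -/

theorem refl_mp (T : ℝ) : MeasurePreserving (fun z : ℝ × V => ((T - z.1, z.2) : ℝ × V))
    (mu T) (mu T) := by
  have h : MeasurePreserving (fun z : ℝ × V => ((T - z.1, z.2) : ℝ × V)) volume volume :=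
    (Measure.measurePreserving_sub_left volume T).prod (MeasurePreserving.id volume)
  have e : Ioo 0 T ×ˢ cube
      = (fun z : ℝ × V => ((T - z.1, z.2) : ℝ × V)) ⁻¹' (Ioo 0 T ×ˢ cube) := by
    ext z
    simp only [mem_prod, mem_preimage, mem_Ioo, sub_pos, sub_lt_self_iff]
    tauto
  have h2 := h.restrict_preimage (boxm 0 T)
  rw [← e] at h2
  exact h2

theorem refl_me (T : ℝ) :
    MeasurableEmbedding (fun z : ℝ × V => ((T - z.1, z.2) : ℝ × V)) := by
  have h : MeasurableEmbedding (fun t : ℝ => T - t) :=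
    (MeasurableEquiv.subLeft T).measurableEmbedding
  exact h.prodMap MeasurableEmbedding.id

/-- The reflected field. -/
noncomputable def rev (T : ℝ) (v : ℝ → V → V) (t : ℝ) : V → V := fun x => -(v (T - t) x)

theorem pr_neg (c : Cf) (i : Fin 3) (φ : V → ℝ) : pr (fun k => -c k) i φ = -pr c i φ := by
  have e : (fun k => (-c k) i * conj (fr φ k)) = fun k => -(c k i * conj (fr φ k)) := by
    funext k
    rw [Pi.neg_apply, neg_mul]
  rw [pr, pr, e, tsum_neg, Complex.neg_re]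

theorem rev_vw (hT : 0 < T) (hc : Dis c) (hV : VW ν T c v) :
    VW (-ν) T (fun k => -cE ν T c v k) (rev T v) := by
  refine ⟨fun i => ?_, fun i => ?_, ?_, ?_⟩
  · exact ((hV.meas i).comp_measurePreserving (refl_mp T)).neg
  · have h := ((refl_mp T).integrable_comp_emb (refl_me T)).2 (hV.sq i)
    refine h.congr (Eventually.of_forall fun z => ?_)
    show v (T - z.1) z.2 i ^ 2 = (-(v (T - z.1) z.2 i)) ^ 2
    rw [neg_sq]
  · intro χ φ hχ _ hφ hp
    have h1 : ContDiff ℝ ∞ fun s => -χ (T - s) := (hχ.comp (contDiff_const.sub contDiff_id)).neg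
    have h2 := div_all hV h1 hφ hp
    have h3 := (refl_mp T).integral_comp (refl_me T)
      (fun z : ℝ × V => -χ (T - z.1) * ∑ i, v z.1 z.2 i * pd i φ z.2)
    refine Eq.trans ?_ (h3.trans h2)
    refine integral_congr_ae (Eventually.of_forall fun z => ?_)
    show χ z.1 * ∑ i, -(v (T - z.1) z.2 i) * pd i φ z.2
      = -χ (T - (T - z.1)) * ∑ i, v (T - z.1) z.2 i * pd i φ z.2
    rw [sub_sub_cancel]
    simp only [neg_mul, Finset.sum_neg_distrib, mul_neg]
  · rintro χ φ hχ ⟨s, hs, h0⟩ hφ hp hd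
    have h1 : ContDiff ℝ ∞ fun r => χ (T - r) := hχ.comp (contDiff_const.sub contDiff_id)
    have h2 := end_formula hT hc hV h1 hφ hp hd
    have hd1 : ∀ r, deriv (fun r => χ (T - r)) r = -deriv χ (T - r) := fun r =>
      deriv_comp_const_sub _ _ _
    simp only [sub_zero, sub_self, h0 T hs.le, zero_mul, zero_sub] at h2
    have h3 := (refl_mp T).integral_comp (refl_me T)
      (fun z : ℝ × V => wk ν v (fun r => χ (T - r)) φ z)
    have h4 : ∑ i, pr (fun k => -cE ν T c v k) i (fun x => φ x i)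
        = -∑ i, pr (cE ν T c v) i (fun x => φ x i) := by
      rw [← Finset.sum_neg_distrib]
      exact Finset.sum_congr rfl fun i _ => pr_neg _ _ _
    rw [h4, mul_neg]
    refine Eq.trans ?_ h2
    rw [← h3]
    congr 1
    refine integral_congr_ae (Eventually.of_forall fun z => ?_)
    show deriv χ z.1 * (∑ i, -(v (T - z.1) z.2 i) * φ z.2 i)
      + χ z.1 * (∑ i, ∑ j, -(v (T - z.1) z.2 i) * -(v (T - z.1) z.2 j)
          * pd i (fun y => φ y j) z.2
        + -ν * ∑ i, -(v (T - z.1) z.2 i) * ∑ j, pd j (pd j (fun y => φ y i)) z.2)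
      = deriv (fun r => χ (T - r)) (T - z.1) * (∑ i, v (T - z.1) z.2 i * φ z.2 i)
        + χ (T - (T - z.1)) * (∑ i, ∑ j, v (T - z.1) z.2 i * v (T - z.1) z.2 j
          * pd i (fun y => φ y j) z.2
          + ν * ∑ i, v (T - z.1) z.2 i * ∑ j, pd j (pd j (fun y => φ y i)) z.2)
    rw [hd1, sub_sub_cancel]
    simp only [neg_mul, mul_neg, neg_neg, Finset.sum_neg_distrib]

/-! ### The smooth part -/

theorem summable_Bt' {ν T : ℝ} (hν : 0 < ν) (hT : 0 < T) {u : ℝ → V → V}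
    (hu : ∀ i, Integrable (fun z : ℝ × V => u z.1 z.2 i) (mu T)) {χ : ℝ → ℝ}
    (hχ : ContDiff ℝ ∞ χ) {s₀ : ℝ} (hs₀ : 0 < s₀)
    (hd : ∀ t, t < s₀ → deriv χ t = 0) (i j : Fin 3) :
    Summable (anti (Bt ν T χ u) i j) := by
  have hdc : Continuous (deriv χ) := hχ.continuous_deriv (by norm_cast)
  obtain ⟨C₀, hC₀⟩ := (isCompact_Icc (a := (0 : ℝ)) (b := T)).exists_bound_of_continuousOn
    hdc.continuousOn
  have hC0 : 0 ≤ C₀ := (norm_nonneg _).trans (hC₀ 0 ⟨le_rfl, hT.le⟩)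
  set J : ℝ := ∑ i, ∫ z, |u z.1 z.2 i| ∂(mu T) with hJ
  have hJi : ∀ i : Fin 3, (∫ z, |u z.1 z.2 i| ∂(mu T)) ≤ J := fun i =>
    Finset.single_le_sum (f := fun i => ∫ z, |u z.1 z.2 i| ∂(mu T))
      (fun _ _ => integral_nonneg fun _ => abs_nonneg _) (Finset.mem_univ i)
  have hJ0 : 0 ≤ J := Finset.sum_nonneg fun _ _ => integral_nonneg fun _ => abs_nonneg _
  have hmem : ∀ᵐ z : ℝ × V ∂(mu T), z ∈ Ioo 0 T ×ˢ cube :=
    ae_restrict_mem (measurableSet_Ioo.prod measurableSet_Icc)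
  have hB : ∀ k i, ‖Bk ν T χ u k i‖ ≤ C₀ * J * ‖gc ν s₀ k‖ := by
    intro k i
    have hg : ‖gc ν s₀ k‖ = Real.exp (-(lam ν k * s₀)) := by
      rw [gc, Complex.norm_real, Real.norm_of_nonneg (Real.exp_pos _).le]
    have hl : 0 ≤ lam ν k := by
      rw [lam]
      have := sq_nonneg' k
      positivity
    refine (norm_integral_le_of_norm_le
      (g := fun z => C₀ * Real.exp (-(lam ν k * s₀)) * |u z.1 z.2 i|)
      ((hu i).abs.const_mul _) ?_).trans ?_
    · filter_upwards [hmem] with z hz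
      rw [norm_mul, norm_mul, norm_ee, mul_one, Complex.norm_real, Complex.norm_real,
        Real.norm_eq_abs, Real.norm_eq_abs, abs_mul, abs_of_pos (Real.exp_pos _)]
      refine mul_le_mul_of_nonneg_right ?_ (abs_nonneg _)
      by_cases h : z.1 < s₀
      · rw [hd _ h, abs_zero, zero_mul]
        positivity
      · refine mul_le_mul (hC₀ _ (Ioo_subset_Icc_self hz.1)) ?_ (Real.exp_pos _).le hC0
        rw [Real.exp_le_exp]
        exact neg_le_neg (mul_le_mul_of_nonneg_left (not_lt.1 h) hl)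
    · rw [integral_const_mul, hg]
      have := mul_le_mul_of_nonneg_left (hJi i)
        (mul_nonneg hC0 (Real.exp_pos (-(lam ν k * s₀))).le)
      linarith
  have hB2 : ∀ k, ‖Bk ν T χ u k‖ ≤ C₀ * J * ‖gc ν s₀ k‖ := fun k =>
    (pi_norm_le_iff_of_nonneg (by positivity)).2 fun i => hB k i
  refine Summable.of_norm_bounded ((h219.WQ.summable_gc hν hs₀).norm.mul_left
    (1 / Real.pi * (4 * (C₀ * J)))) fun k => ?_
  refine (norm_anti_le (Bt ν T χ u) i j k).trans ?_
  have h2 := norm_prj_le k (Bk ν T χ u k)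
  have hg0 : 0 ≤ ‖gc ν s₀ k‖ := norm_nonneg _
  have h3 : ‖Bt ν T χ u k‖ / len k ≤ 4 * (C₀ * J) * ‖gc ν s₀ k‖ := by
    by_cases hk : k = 0
    · rw [hk, len_zero, div_zero]
      positivity
    · refine (div_le_self (norm_nonneg _) (one_le_len hk)).trans (h2.trans ?_)
      have := hB2 k
      linarith
  calc 1 / Real.pi * (‖Bt ν T χ u k‖ / len k)
      ≤ 1 / Real.pi * (4 * (C₀ * J) * ‖gc ν s₀ k‖) :=
        mul_le_mul_of_nonneg_left h3 (by positivity)
    _ = 1 / Real.pi * (4 * (C₀ * J)) * ‖gc ν s₀ k‖ := by ring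

/-- **Duhamel's formula** for the reflected solution. -/
theorem duh {u : ℝ → V → V} {b : Cf} (hb : Dis b) (hV : VW (-ν) T b u) {χ : ℝ → ℝ}
    (hχ : ContDiff ℝ ∞ χ) (h0 : χ 0 = 1) (hs : ∃ s < T, ∀ t, s ≤ t → χ t = 0) {k : K3}
    (hk0 : k ≠ 0) : b k = -prj k (Bk ν T χ u k)
      + (2 * Real.pi * Complex.I : ℂ) • prj k (fun i => ∑ j, (k j : ℂ) * Mk ν T χ u k i j) := by
  set X : ℝ → ℝ := fun t => χ t * Real.exp (-(2 * lam ν k * t)) with hX
  have hXs : ContDiff ℝ ∞ X := by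
    refine hχ.mul (Real.contDiff_exp.comp ?_)
    exact (contDiff_const.mul contDiff_id).neg
  have hXd : ∀ t, deriv X t = (deriv χ t - 2 * lam ν k * χ t) * Real.exp (-(2 * lam ν k * t)) := by
    intro t
    have h1 : HasDerivAt χ (deriv χ t) t :=
      (hχ.differentiable (by norm_num) t).hasDerivAt
    have h2 : HasDerivAt (fun s => Real.exp (-(2 * lam ν k * s)))
        (Real.exp (-(2 * lam ν k * t)) * (-(2 * lam ν k * 1))) t :=
      (((hasDerivAt_id t).const_mul (2 * lam ν k)).neg).exp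
    have h3 : HasDerivAt X _ t := h1.mul h2
    rw [h3.deriv]
    ring
  have hX0 : X 0 = 1 := by
    rw [hX]
    simp [h0]
  obtain ⟨s, hs1, hs2⟩ := hs
  have h1 := h219.WQ.c_eq hb hV hXs hX0 ⟨s, hs1, fun t ht => by
    simp only [hX, hs2 t ht, zero_mul]⟩ hk0
  have hlam : lam (-ν) k = -lam ν k := by rw [lam, lam]; ring
  have hexp : ∀ t : ℝ, Real.exp (-(2 * lam ν k * t)) * Real.exp (lam ν k * t)
      = Real.exp (-(lam ν k * t)) := by
    intro t
    rw [← Real.exp_add]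
    congr 1
    ring
  have eA : Ak (-ν) T X u k = -Bk ν T χ u k := by
    funext i
    show Ak (-ν) T X u k i = -Bk ν T χ u k i
    rw [Ak, Bk, ← integral_neg]
    refine integral_congr_ae (Eventually.of_forall fun z => ?_)
    show (hk (-ν) X k z.1 : ℂ) * ee (-k) z.2 * (u z.1 z.2 i : ℂ)
      = -(((deriv χ z.1 * Real.exp (-(lam ν k * z.1)) : ℝ) : ℂ) * ee (-k) z.2
        * (u z.1 z.2 i : ℂ))
    have e : hk (-ν) X k z.1 = -(deriv χ z.1 * Real.exp (-(lam ν k * z.1))) := by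
      rw [hk, hXd, hlam, hX]
      simp only [neg_mul, neg_neg]
      rw [← hexp]
      ring
    rw [e]
    push_cast
    ring
  have eM : ∀ i j, Mk (-ν) T X u k i j = Mk ν T χ u k i j := by
    intro i j
    rw [Mk, Mk]
    refine integral_congr_ae (Eventually.of_forall fun z => ?_)
    show (X z.1 : ℂ) * gc (-ν) z.1 k * ee (-k) z.2 * ((u z.1 z.2 i * u z.1 z.2 j : ℝ) : ℂ)
      = (χ z.1 : ℂ) * gc ν z.1 k * ee (-k) z.2 * ((u z.1 z.2 i * u z.1 z.2 j : ℝ) : ℂ)
    have e : (X z.1 : ℂ) * gc (-ν) z.1 k = (χ z.1 : ℂ) * gc ν z.1 k := by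
      rw [gc, gc, hlam, hX, neg_mul, neg_neg, ← Complex.ofReal_mul, ← Complex.ofReal_mul,
        mul_assoc, hexp]
    rw [e]
  rw [h1, eA]
  have e1 : prj k (-Bk ν T χ u k) = -prj k (Bk ν T χ u k) := by
    have := prj_smul k (-1 : ℂ) (Bk ν T χ u k)
    rwa [neg_one_smul, neg_one_smul] at this
  rw [e1]
  simp only [eM]

end Pool.Agent.Run7.h219.HP
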