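import Pool.Agent.Run7.h219.HP.Sol
import Pool.Agent.Run7.h219.OS.C

/-!
Gluing two solutions at the time `τ`.
-/

set_option autoImplicit false

open MeasureTheory Set Filter Topology
open scoped ContDiff ENNReal ComplexConjugate

namespace Pool.Agent.Run7.h219.HP

open H459R3.NS Pool.Agent.Run7.h782 Pool.Agent.Run7.h782.GD Pool.Agent.Run7.h782.GS
open Pool.Agent.Run7.h782.WS Pool.Agent.Run7.h782.WQ Pool.Agent.Run7.h744.WS
open Pool.Agent.Run7.h969.WS Pool.Agent.Run7.h969.HP Pool.Agent.Run7.h219.OS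
open Pool.Agent.Run7.h782.OS Run7.h475.WS

/-- `a` until the time `τ`, and `b`, started at the time `τ`, after it. -/
noncomputable def gl {E : Type*} (τ : ℝ) (a b : ℝ → E) (t : ℝ) : E :=
  if t ≤ τ then a t else b (t - τ)

theorem gl_le {E : Type*} {τ : ℝ} {a b : ℝ → E} {t : ℝ} (ht : t ≤ τ) : gl τ a b t = a t :=
  if_pos ht

theorem gl_gt {E : Type*} {τ : ℝ} {a b : ℝ → E} {t : ℝ} (ht : τ < t) :
    gl τ a b t = b (t - τ) := if_neg (not_le.2 ht)

/-! ### The equation -/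

section

variable {ν τ : ℝ} {I J : Set ℝ} {u v : ℝ → V → V} {p q : ℝ → V → ℝ}

theorem congr_o (hI : IsOpen I) (h : SolOn ν I u p) (hu : ∀ t ∈ I, v t = u t)
    (hp : ∀ t ∈ I, q t = p t) : SolOn ν I v q := by
  refine ⟨h.smooth_u.congr fun z hz => by simp only [hu z.1 hz.1],
    h.smooth_p.congr fun z hz => by simp only [hp z.1 hz.1], fun t ht => ?_, fun t ht => ?_,
    fun t ht => ?_, fun t ht x i => ?_⟩
  · rw [hu t ht]
    exact h.per_u t ht
  · rw [hp t ht]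
    exact h.per_p t ht
  · rw [hu t ht]
    exact h.divfree t ht
  · have e : (fun s => v s x i) =ᶠ[𝓝 t] fun s => u s x i := by
      filter_upwards [hI.mem_nhds ht] with s hs
      rw [hu s hs]
    rw [e.deriv_eq, hu t ht, hp t ht]
    exact h.momentum t ht x i

theorem union_o (hI : IsOpen I) (hJ : IsOpen J) (h : SolOn ν I u p) (h' : SolOn ν J u p) :
    SolOn ν (I ∪ J) u p := by
  refine ⟨?_, ?_, fun t ht => ht.elim (h.per_u t) (h'.per_u t),
    fun t ht => ht.elim (h.per_p t) (h'.per_p t), fun t ht => ht.elim (h.divfree t) (h'.divfree t),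
    fun t ht => ht.elim (h.momentum t) (h'.momentum t)⟩
  · rw [union_prod]
    exact h.smooth_u.union_of_isOpen h'.smooth_u (hI.prod isOpen_univ) (hJ.prod isOpen_univ)
  · rw [union_prod]
    exact h.smooth_p.union_of_isOpen h'.smooth_p (hI.prod isOpen_univ) (hJ.prod isOpen_univ)

theorem shift_o (τ : ℝ) (h : SolOn ν I u p) :
    SolOn ν ((fun t => t - τ) ⁻¹' I) (fun t => u (t - τ)) (fun t => p (t - τ)) := by
  have hs : ContDiffOn ℝ ∞ (fun z : ℝ × V => ((z.1 - τ, z.2) : ℝ × V))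
      (((fun t => t - τ) ⁻¹' I) ×ˢ univ) :=
    ((contDiff_fst.sub contDiff_const).prodMk contDiff_snd).contDiffOn
  have hm : MapsTo (fun z : ℝ × V => ((z.1 - τ, z.2) : ℝ × V))
      (((fun t => t - τ) ⁻¹' I) ×ˢ univ) (I ×ˢ univ) := fun z hz => ⟨hz.1, mem_univ _⟩
  refine ⟨h.smooth_u.comp hs hm, h.smooth_p.comp hs hm, fun t ht => h.per_u _ ht,
    fun t ht => h.per_p _ ht, fun t ht => h.divfree _ ht, fun t ht x i => ?_⟩
  have e : deriv (fun s => u (s - τ) x i) t = deriv (fun s => u s x i) (t - τ) :=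
    deriv_comp_sub_const (f := fun s => u s x i) τ t
  rw [e]
  exact h.momentum _ ht x i

/-- The singular times of the glued solution. -/
noncomputable def sing (τ : ℝ) (F : Finset ℝ) : Finset ℝ := insert τ (F.image fun s => s + τ)

theorem sing_eq (τ : ℝ) (F : Finset ℝ) :
    Ioi 0 \ (sing τ F : Set ℝ) ⊆ Ioo 0 τ ∪ ((fun t => t - τ) ⁻¹' (Ioi 0 \ (F : Set ℝ))) := by
  rintro t ⟨h0, h1⟩
  rw [sing, Finset.coe_insert, Finset.coe_image] at h1
  rcases lt_trichotomy t τ with h | h | h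
  · exact Or.inl ⟨h0, h⟩
  · exact absurd (mem_insert_iff.2 (Or.inl h)) h1
  · refine Or.inr ⟨sub_pos.2 h, fun h2 => h1 (mem_insert_iff.2 (Or.inr ⟨t - τ, h2, ?_⟩))⟩
    show t - τ + τ = t
    ring

theorem open_o (F : Finset ℝ) : IsOpen (Ioi 0 \ (F : Set ℝ)) :=
  isOpen_Ioi.sdiff F.finite_toSet.isClosed

theorem gl_sol {τ' : ℝ} (hτ' : τ < τ') (h : SolOn ν (Ioo 0 τ') u p)
    {F : Finset ℝ} (h' : SolOn ν (Ioi 0 \ (F : Set ℝ)) v q) :
    SolOn ν (Ioi 0 \ (sing τ F : Set ℝ)) (gl τ u v) (gl τ p q) := by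
  have h1 : SolOn ν (Ioo 0 τ) (gl τ u v) (gl τ p q) :=
    congr_o isOpen_Ioo (mono_o h (Ioo_subset_Ioo_right hτ'.le)) (fun t ht => gl_le ht.2.le)
      fun t ht => gl_le ht.2.le
  have ho : IsOpen ((fun t => t - τ) ⁻¹' (Ioi 0 \ (F : Set ℝ))) :=
    (open_o F).preimage (continuous_id.sub continuous_const)
  have h2 : SolOn ν ((fun t => t - τ) ⁻¹' (Ioi 0 \ (F : Set ℝ))) (gl τ u v) (gl τ p q) :=
    congr_o ho (shift_o τ h') (fun t ht => gl_gt (sub_pos.1 ht.1))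
      fun t ht => gl_gt (sub_pos.1 ht.1)
  exact mono_o (union_o isOpen_Ioo ho h1 h2) (sing_eq τ F)

end

/-! ### Bounds -/

/-- Periodic functions take all their values on the cell. -/
theorem per_fract {F : Type*} {f : V → F} (hf : Per f) (x : V) :
    f x = f fun i => Int.fract (x i) := by
  have h := hf.int (fun i => -⌊x i⌋) x
  rw [← h]
  congr 1
  funext i
  rw [Int.fract, Pi.add_apply]
  push_cast
  ring

theorem fract_mem (x : V) : (fun i => Int.fract (x i)) ∈ cube :=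
  ⟨fun _ => Int.fract_nonneg _, fun _ => (Int.fract_lt_one _).le⟩

theorem bdd_o {ν : ℝ} {I : Set ℝ} {u : ℝ → V → V} {p : ℝ → V → ℝ} (h : SolOn ν I u p)
    {K : Set ℝ} (hK : IsCompact K) (hKI : K ⊆ I) : ∃ M : ℝ, ∀ t ∈ K, ∀ x i, |u t x i| ≤ M := by
  have hc : ContinuousOn (fun z : ℝ × V => u z.1 z.2) (K ×ˢ cube) :=
    h.smooth_u.continuousOn.mono (prod_mono hKI (subset_univ _))
  obtain ⟨M, hM⟩ := (hK.prod cube_compact).exists_bound_of_continuousOn hc
  refine ⟨M, fun t ht x i => ?_⟩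
  rw [per_fract (h.per_u t (hKI ht)) x]
  exact (norm_le_pi_norm (u t fun i => Int.fract (x i)) i).trans (hM (t, _) ⟨ht, fract_mem x⟩)

/-- Bounded functions are `o (1 / √(t - s))`. -/
theorem ev_of_bdd {u : ℝ → V → V} {s M : ℝ}
    (hM : ∀ᶠ t in 𝓝[>] s, ∀ x i, |u t x i| ≤ M) {δ : ℝ} (hδ : 0 < δ) :
    ∀ᶠ t in 𝓝[>] s, ∀ x i, |u t x i| ≤ δ / Real.sqrt (t - s) := by
  have h1 : Tendsto (fun t => M * Real.sqrt (t - s)) (𝓝[>] s) (𝓝 0) := by
    have h2 : Continuous fun t => M * Real.sqrt (t - s) := by fun_prop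
    have h3 := h2.tendsto s
    rw [sub_self, Real.sqrt_zero, mul_zero] at h3
    exact h3.mono_left nhdsWithin_le_nhds
  filter_upwards [hM, h1.eventually (gt_mem_nhds hδ), self_mem_nhdsWithin] with t h4 h5 h6 x i
  have h7 : 0 < Real.sqrt (t - s) := Real.sqrt_pos.2 (sub_pos.2 h6)
  rw [le_div_iff₀ h7]
  exact (mul_le_mul_of_nonneg_right (h4 x i) h7.le).trans h5.le

theorem ev_reg {ν : ℝ} {I : Set ℝ} (hI : IsOpen I) {u : ℝ → V → V} {p : ℝ → V → ℝ}
    (h : SolOn ν I u p) {s : ℝ} (hs : s ∈ I) {δ : ℝ} (hδ : 0 < δ) :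
    ∀ᶠ t in 𝓝[>] s, ∀ x i, |u t x i| ≤ δ / Real.sqrt (t - s) := by
  obtain ⟨K, hK, hsK, hKI⟩ := exists_compact_subset hI hs
  obtain ⟨M, hM⟩ := bdd_o h hK hKI
  refine ev_of_bdd (M := M) ?_ hδ
  filter_upwards [nhdsWithin_le_nhds (mem_interior_iff_mem_nhds.1 hsK)] with t ht
  exact hM t ht

/-! ### Translations and integrals -/

theorem lint_glue {τ T : ℝ} {H H₁ H₂ : ℝ → ℝ≥0∞}
    (h₁ : ∀ t ∈ Ioo 0 τ, H t = H₁ t) (h₂ : ∀ t, τ < t → H t = H₂ (t - τ)) :
    ∫⁻ t in Ioo 0 (τ + T), H t ≤ (∫⁻ t in Ioo 0 τ, H₁ t) + ∫⁻ t in Ioo 0 T, H₂ t := by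
  have h3 : (∫⁻ t in Ioo τ (τ + T), H t) = ∫⁻ t in Ioo 0 T, H₂ t := by
    have h4 : MeasurePreserving (fun t : ℝ => t - τ) (volume.restrict (Ioo τ (τ + T)))
        (volume.restrict (Ioo 0 T)) := by
      have e : Ioo τ (τ + T) = (fun t : ℝ => t - τ) ⁻¹' Ioo 0 T := by
        ext t
        simp only [mem_preimage, mem_Ioo, sub_pos, sub_lt_iff_lt_add']
      rw [e]
      exact (measurePreserving_sub_right volume τ).restrict_preimage measurableSet_Ioo
    rw [← h4.lintegral_comp_emb (MeasurableEquiv.subRight τ).measurableEmbedding]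
    exact setLIntegral_congr_fun measurableSet_Ioo fun t ht => h₂ t ht.1
  calc ∫⁻ t in Ioo 0 (τ + T), H t ≤ ∫⁻ t in Ioc 0 τ ∪ Ioo τ (τ + T), H t := by
        refine lintegral_mono_set fun t ht => ?_
        rcases le_or_gt t τ with h | h
        · exact Or.inl ⟨ht.1, h⟩
        · exact Or.inr ⟨h, ht.2⟩
    _ ≤ (∫⁻ t in Ioc 0 τ, H t) + ∫⁻ t in Ioo τ (τ + T), H t := lintegral_union_le _ _ _
    _ = _ := by
        rw [h3, ← restrict_Ioo_eq_restrict_Ioc]
        congr 1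
        exact setLIntegral_congr_fun measurableSet_Ioo h₁

end Pool.Agent.Run7.h219.HP
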