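import Pool.Agent.Run7.h219.HP.Glue

/-!
Gluing two very weak solutions at the time `τ`, and the weak continuity.
-/

set_option autoImplicit false

open MeasureTheory Set Filter Topology
open scoped ContDiff ENNReal ComplexConjugate

namespace Pool.Agent.Run7.h219.HP

open H459R3.NS Pool.Agent.Run7.h782 Pool.Agent.Run7.h782.GD Pool.Agent.Run7.h782.GS
open Pool.Agent.Run7.h782.WS Pool.Agent.Run7.h782.WQ Pool.Agent.Run7.h744.WS
open Pool.Agent.Run7.h969.WS Pool.Agent.Run7.h969.HP Pool.Agent.Run7.h219.OS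
open Pool.Agent.Run7.h782.OS Run7.h475.WS

variable {ν : ℝ}

/-- Gluing, in general form. -/
theorem gen_vw {T : ℝ} (hT : 0 < T) {c₀ c : Cf} {v w u : ℝ → V → V}
    (hm : ∀ i, AEStronglyMeasurable (fun z : ℝ × V => v z.1 z.2 i)
      (volume.restrict (Ioo 0 T ×ˢ cube)))
    (hL : ∀ i, IntegrableOn (fun z : ℝ × V => v z.1 z.2 i ^ 2) (Ioo 0 T ×ˢ cube))
    (hdv : ∀ (η : ℝ → ℝ) (φ : V → ℝ), ContDiff ℝ ∞ η → ContDiff ℝ ∞ φ → Per φ →
      ∫ z in Ioo 0 T ×ˢ cube, η z.1 * ∑ i, v z.1 z.2 i * pd i φ z.2 = 0)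
    (hwk : ∀ (χ : ℝ → ℝ) (φ : V → V), ContDiff ℝ ∞ χ → ContDiff ℝ ∞ φ → Per φ →
      (∀ x, ∑ i, pd i (fun y => φ y i) x = 0) →
      χ 0 * (∑ i, pr c₀ i (fun x => φ x i)) - χ T * (∑ i, pr c i (fun x => φ x i))
        + ∫ z in Ioo 0 T ×ˢ cube, wk ν v χ φ z = 0)
    (h1 : ∀ t ∈ Ioo 0 T, u t = v t) (h2 : ∀ t, T < t → u t = w (t - T))
    {T' : ℝ} (hT' : T < T') (hw : VW ν (T' - T) c w) : VW ν T' c₀ u := by
  have hl : ∀ z ∈ Ioo 0 T ×ˢ cube, u z.1 = v z.1 := fun z hz => h1 z.1 hz.1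
  have hr : ∀ z ∈ Ioo T T' ×ˢ cube, u z.1 = w (z.1 - T) := fun z hz => h2 z.1 hz.1.1
  -- integrability of functions given on the two parts
  have hint : ∀ F f g : ℝ × V → ℝ, (∀ z ∈ Ioo 0 T ×ˢ cube, F z = f z) →
      (∀ z ∈ Ioo T T' ×ˢ cube, F z = g (z.1 - T, z.2)) → IntegrableOn f (Ioo 0 T ×ˢ cube) →
      IntegrableOn g (Ioo 0 (T' - T) ×ˢ cube) → IntegrableOn F (Ioo 0 T' ×ˢ cube) ∧
      ∫ z in Ioo 0 T' ×ˢ cube, F z = (∫ z in Ioo 0 T ×ˢ cube, f z)
        + ∫ z in Ioo 0 (T' - T) ×ˢ cube, g z := by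
    intro F f g h1 h2 hf hg
    have i1 : IntegrableOn F (Ioo 0 T ×ˢ cube) :=
      hf.congr_fun (fun z hz => (h1 z hz).symm) (boxm 0 T)
    have i2 : IntegrableOn F (Ioo T T' ×ˢ cube) :=
      (shift_int hg).congr_fun (fun z hz => (h2 z hz).symm) (boxm T T')
    have i3 : IntegrableOn F (two T T') volume := i1.union i2
    refine ⟨i3.congr_set_ae (box_ae hT hT'), ?_⟩
    rw [setIntegral_congr_set (box_ae hT hT'), two,
      setIntegral_union (box_disj T') (boxm T T') i1 i2,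
      setIntegral_congr_fun (boxm 0 T) h1, setIntegral_congr_fun (boxm T T') h2,
      shift_eq T' g]
  refine ⟨fun i => ?_, fun i => ?_, ?_, ?_⟩
  · rw [Measure.restrict_congr_set (box_ae hT hT'), two, aestronglyMeasurable_union_iff]
    constructor
    · exact (hm i).congr ((ae_restrict_mem (boxm 0 T)).mono fun z hz => by
        show v z.1 z.2 i = u z.1 z.2 i
        rw [hl z hz])
    · have h1 : AEStronglyMeasurable (fun z : ℝ × V => w (z.1 - T) z.2 i)
          (volume.restrict (Ioo T T' ×ˢ cube)) :=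
        (hw.meas i).comp_measurePreserving (shift_mp T')
      exact h1.congr ((ae_restrict_mem (boxm T T')).mono fun z hz => by
        show w (z.1 - T) z.2 i = u z.1 z.2 i
        rw [hr z hz])
  · exact (hint _ (fun z => v z.1 z.2 i ^ 2) (fun z => w z.1 z.2 i ^ 2)
      (fun z hz => by simp only [hl z hz]) (fun z hz => by simp only [hr z hz])
      (hL i) (hw.sq i)).1
  · intro χ φ hχ h0 hφ hp
    have hSP : SP φ := ⟨hφ, hp⟩
    have j1 : ∀ (a b : ℝ) (u : ℝ → V → V) (η : ℝ → ℝ), Continuous η →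
        (∀ i, AEStronglyMeasurable (fun z : ℝ × V => u z.1 z.2 i)
          (volume.restrict (Ioo a b ×ˢ cube))) →
        (∀ i, IntegrableOn (fun z : ℝ × V => u z.1 z.2 i ^ 2) (Ioo a b ×ˢ cube)) →
        IntegrableOn (fun z : ℝ × V => η z.1 * ∑ i, u z.1 z.2 i * pd i φ z.2)
          (Ioo a b ×ˢ cube) := by
      intro a b u η hη hm h2
      have k1 : IntegrableOn (fun z : ℝ × V => ∑ i, u z.1 z.2 i * pd i φ z.2)
          (Ioo a b ×ˢ cube) :=
        integrable_finsetSum _ fun i _ => mul_int (ψ := fun z : ℝ × V => pd i φ z.2)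
          (lin_int (hm i) (h2 i)) ((hSP.pd i).cont.comp continuous_snd)
      refine (mul_int (ψ := fun z : ℝ × V => η z.1) k1 (hη.comp continuous_fst)).congr ?_
      exact Eventually.of_forall fun z => mul_comm _ _
    have hχT : ContDiff ℝ ∞ fun t => χ (t + T) := hχ.comp (contDiff_id.add contDiff_const)
    rw [(hint (fun z => χ z.1 * ∑ i, u z.1 z.2 i * pd i φ z.2)
      (fun z => χ z.1 * ∑ i, v z.1 z.2 i * pd i φ z.2)
      (fun z => χ (z.1 + T) * ∑ i, w z.1 z.2 i * pd i φ z.2)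
      (fun z hz => by simp only [hl z hz])
      (fun z hz => by simp only [hr z hz, sub_add_cancel])
      (j1 0 T v χ hχ.continuous hm hL)
      (j1 0 (T' - T) w (fun t => χ (t + T)) hχT.continuous hw.meas hw.sq)).2]
    have k1 := hw.div (fun t => χ (t + T)) φ hχT (fun t ht => h0 _ (by linarith)) hφ hp
    rw [k1, add_zero]
    exact hdv χ φ hχ hφ hp
  · rintro χ φ hχ ⟨s, hs, h0⟩ hφ hp hd
    have hχT : ContDiff ℝ ∞ fun t => χ (t + T) := hχ.comp (contDiff_id.add contDiff_const)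
    have hdT : ∀ t, deriv (fun t => χ (t + T)) t = deriv χ (t + T) := fun t =>
      deriv_comp_add_const _ _ _
    have k1 := hwk χ φ hχ hφ hp hd
    have k2 := hw.weak (fun t => χ (t + T)) φ hχT ⟨s - T, by linarith, fun t ht => h0 _ (by linarith)⟩
      hφ hp hd
    rw [zero_add] at k2
    have k3 := (hint (wk ν u χ φ) (wk ν v χ φ) (wk ν w (fun t => χ (t + T)) φ)
      (fun z hz => by simp only [wk, hl z hz])
      (fun z hz => by simp only [wk, hr z hz, hdT, sub_add_cancel])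
      (wk_int hm hL hχ hφ hp)
      (wk_int hw.meas hw.sq hχT hφ hp)).2
    show χ 0 * (∑ i, pr c₀ i (fun x => φ x i))
      + ∫ z in Ioo 0 T' ×ˢ cube, wk ν u χ φ z = 0
    have k4 : χ T * (∑ i, pr c i (fun x => φ x i))
      + ∫ z in Ioo 0 (T' - T) ×ˢ cube, wk ν w (fun t => χ (t + T)) φ z = 0 := k2
    rw [k3]
    linarith

/-- The divergence of solutions tested with functions of space-time. -/
theorem div_o {T : ℝ} {v : ℝ → V → V} {q : ℝ → V → ℝ} (h : SolOn ν (Ioo 0 T) v q)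
    (hL : ∀ i, IntegrableOn (fun z : ℝ × V => v z.1 z.2 i ^ 2) (Ioo 0 T ×ˢ cube))
    (η : ℝ → ℝ) (φ : V → ℝ) (hη : ContDiff ℝ ∞ η) (hφ : ContDiff ℝ ∞ φ) (hp : Per φ) :
    ∫ z in Ioo 0 T ×ˢ cube, η z.1 * ∑ i, v z.1 z.2 i * pd i φ z.2 = 0 := by
  have hSP : SP φ := ⟨hφ, hp⟩
  have hm : ∀ i, AEStronglyMeasurable (fun z : ℝ × V => v z.1 z.2 i)
      (volume.restrict (Ioo 0 T ×ˢ cube)) := fun i =>
    ((smooth_o h i).continuousOn.mono (prod_mono le_rfl (subset_univ _))).aestronglyMeasurable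
      (boxm 0 T)
  have k1 : IntegrableOn (fun z : ℝ × V => ∑ i, v z.1 z.2 i * pd i φ z.2) (Ioo 0 T ×ˢ cube) :=
    integrable_finsetSum _ fun i _ => mul_int (ψ := fun z : ℝ × V => pd i φ z.2)
      (lin_int (hm i) (hL i)) ((hSP.pd i).cont.comp continuous_snd)
  have k2 : IntegrableOn (fun z : ℝ × V => η z.1 * ∑ i, v z.1 z.2 i * pd i φ z.2)
      (Ioo 0 T ×ˢ cube) := by
    refine (mul_int (ψ := fun z : ℝ × V => η z.1) k1
      (hη.continuous.comp continuous_fst)).congr ?_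
    exact Eventually.of_forall fun z => mul_comm _ _
  rw [Measure.volume_eq_prod] at k2 ⊢
  rw [setIntegral_prod _ k2]
  have k3 : ∀ t ∈ Ioo (0 : ℝ) T, ∫ x in cube, η t * ∑ i, v t x i * pd i φ x = 0 := by
    intro t ht
    rw [integral_const_mul, integral_finsetSum _ fun i _ => ((sp_o h ht i).mul (hSP.pd i)).int]
    have h2 := int_press (fun i => sp_o h ht i) (h.divfree t ht) hSP
    rw [h2, mul_zero]
  rw [setIntegral_congr_fun measurableSet_Ioo k3]
  simp

end Pool.Agent.Run7.h219.HP
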