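import Pool.Agent.Run7.h219.HP.Ind
import Pool.Agent.Run7.h782.HP.Orl

/-!
The induction over the intervals `[j τ, (j + 1) τ]`, with the closeness in Orlicz spaces.
-/

set_option autoImplicit false

open MeasureTheory Set Filter Topology
open scoped ContDiff ENNReal ComplexConjugate

namespace Pool.Agent.Run7.h219.HP

open H459R3.NS Pool.Agent.Run7.h782 Pool.Agent.Run7.h782.GD Pool.Agent.Run7.h782.GS
open Pool.Agent.Run7.h782.WS Pool.Agent.Run7.h782.WQ Pool.Agent.Run7.h744.WS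
open Pool.Agent.Run7.h969.WS Pool.Agent.Run7.h969.HP Pool.Agent.Run7.h219.OS
open Pool.Agent.Run7.h782.OS Run7.h475.WS

/-- The properties of the solution: `T` is the length of the rest of the path, `K` the bound for the
distance to the path. -/
structure GoodP (ν : ℝ) (m : V) (Q : ℕ → ℝ) (c : Cf) (T : ℝ) (Φ : ℝ → ℝ) (K : ℝ≥0∞) (ε : ℝ)
    (w : ℝ → V → V) (F : Finset ℝ) (u : ℝ → V → V) (p : ℝ → V → ℝ) : Prop where
  mem : ∀ s ∈ F, s ∈ Icc 0 T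
  sol : SolOn ν (Ioi 0 \ (F : Set ℝ)) u p
  vw : ∀ T', 0 < T' → VW ν T' c u
  lq : ∀ T', 0 < T' → ∀ n, InLq T' u (2 * Q n)
  wc : ∀ (i : Fin 3) (ψ : V → ℝ), ContDiff ℝ ∞ ψ → Per ψ →
    ContinuousOn (fun t => ∫ x in cube, u t x i * ψ x) (Ioi 0)
  wa : ∀ (i : Fin 3) (ψ : V → ℝ), ContDiff ℝ ∞ ψ → Per ψ →
    Tendsto (fun t => ∫ x in cube, u t x i * ψ x) (𝓝[>] 0) (𝓝 (pr c i ψ))
  loc : ∀ s, 0 ≤ s → ∀ δ : ℝ, 0 < δ → ∀ᶠ t in 𝓝[>] s, ∀ x i, |u t x i| ≤ δ / Real.sqrt (t - s)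
  near : ∃ h : ℝ → ℝ, (∀ t, 0 ≤ h t) ∧ (∀ t ∈ Ioo 0 T, ∀ x i, |u t x i - w t x i| ≤ h t) ∧
    ∫⁻ t in Ioo 0 T, ENNReal.ofReal (Φ (h t)) ≤ K
  late : ∀ t, T + ε ≤ t → ∀ x i, |u t x i - m i| ≤ ε

/-- **The step.** -/
theorem goodP_succ {ν : ℝ} (hν : 0 < ν) {m : V} {Q : ℕ → ℝ} {c : Cf} {T : ℝ} {Φ : ℝ → ℝ}
    {κ K : ℝ≥0∞} {ε : ℝ} {w : ℝ → V → V} {τ τ' : ℝ} (hτ : 0 < τ) (hτ' : τ < τ') (hT : 0 ≤ T) (hε : 0 < ε)
    {u₁ u₂ : ℝ → V → V} {p₁ p₂ : ℝ → V → ℝ} (h : SolOn ν (Ioo 0 τ') u₁ p₁)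
    (hL : ∀ i, IntegrableOn (fun z : ℝ × V => u₁ z.1 z.2 i ^ 2) (Ioc 0 τ ×ˢ cube))
    (hlq : ∀ n, InLq τ u₁ (2 * Q n))
    (hwa : ∀ (i : Fin 3) (ψ : V → ℝ), ContDiff ℝ ∞ ψ → Per ψ →
      Tendsto (fun t => ∫ x in cube, u₁ t x i * ψ x) (𝓝[>] 0) (𝓝 (pr c i ψ)))
    (hh : ∃ h : ℝ → ℝ, (∀ t ∈ Ioc 0 τ, ∀ x i, |u₁ t x i| ≤ h t) ∧
      Tendsto (fun t => Real.sqrt t * h t) (𝓝[>] 0) (𝓝 0))
    (hn : ∃ h : ℝ → ℝ, (∀ t, 0 ≤ h t) ∧ (∀ t ∈ Ioc 0 τ, ∀ x i, |u₁ t x i - w t x i| ≤ h t) ∧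
      ∫⁻ t in Ioo 0 τ, ENNReal.ofReal (Φ (h t)) ≤ κ)
    {F : Finset ℝ} (g : GoodP ν m Q (vf (u₁ τ)) T Φ K ε (fun t => w (τ + t)) F u₂ p₂) :
    GoodP ν m Q c (τ + T) Φ (κ + K) ε w (sing τ F) (gl τ u₁ u₂) (gl τ p₁ p₂) := by
  have hτm : τ ∈ Ioo 0 τ' := ⟨hτ, hτ'⟩
  have hsub : Ioo 0 τ ⊆ Ioo 0 τ' := Ioo_subset_Ioo_right hτ'.le
  have hsp : ∀ i, SP (fun y => u₁ τ y i) := fun i => sp_o h hτm i
  refine ⟨?_, gl_sol hτ' h g.sol, ?_, ?_, ?_, ?_, ?_, ?_, ?_⟩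
  · intro s hs
    rw [sing, Finset.mem_insert, Finset.mem_image] at hs
    rcases hs with rfl | ⟨r, hr, rfl⟩
    · exact ⟨hτ.le, by linarith⟩
    · have := g.mem r hr
      exact ⟨by linarith [this.1], by linarith [this.2]⟩
  · intro T' hT'
    have hL' : ∀ i, IntegrableOn (fun z : ℝ × V => u₁ z.1 z.2 i ^ 2) (Ioo 0 τ ×ˢ cube) := fun i =>
      (hL i).mono_set (prod_mono Ioo_subset_Ioc_self le_rfl)
    have hm : ∀ i, AEStronglyMeasurable (fun z : ℝ × V => u₁ z.1 z.2 i)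
        (volume.restrict (Ioo 0 τ ×ˢ cube)) := fun i =>
      ((smooth_o h i).continuousOn.mono (prod_mono hsub (subset_univ _))).aestronglyMeasurable
        (boxm 0 τ)
    have h1 : VW ν (max T' (τ + 1)) c (gl τ u₁ u₂) := by
      have h2 : τ < max T' (τ + 1) := (lt_add_one τ).trans_le (le_max_right _ _)
      refine gen_vw hτ (c := vf (u₁ τ)) hm hL'
        (fun η φ hη hφ hp => div_o (mono_o h hsub) hL' η φ hη hφ hp) ?_
        (fun t ht => gl_le ht.2.le) (fun t ht => gl_gt ht) h2 (g.vw _ (sub_pos.2 h2))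
      intro χ φ hχ hφ hp hd
      have h3 := stmVWL ν τ τ' hν hτ hτ' u₁ p₁ h hL c hwa χ φ hχ hφ hp hd
      have e : ∑ i, pr (vf (u₁ τ)) i (fun x => φ x i) = ∑ i, ∫ x in cube, u₁ τ x i * φ x i :=
        Finset.sum_congr rfl fun i _ => pr_vf hsp i (contDiff_pi.1 hφ i).continuous
      rw [e]
      exact h3
    exact vw_mono h1 (le_max_left _ _)
  · intro T' hT' n
    have h1 := lint_glue (τ := τ) (T := T')
      (H := fun t => (∫⁻ x in cube, ENNReal.ofReal (∑ i, |gl τ u₁ u₂ t x i| ^ (2 * Q n)))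
        ^ (2 / (2 * Q n)))
      (H₁ := fun t => (∫⁻ x in cube, ENNReal.ofReal (∑ i, |u₁ t x i| ^ (2 * Q n)))
        ^ (2 / (2 * Q n)))
      (H₂ := fun t => (∫⁻ x in cube, ENNReal.ofReal (∑ i, |u₂ t x i| ^ (2 * Q n)))
        ^ (2 / (2 * Q n)))
      (fun t ht => by simp only [gl_le (a := u₁) (b := u₂) ht.2.le])
      (fun t ht => by simp only [gl_gt (a := u₁) (b := u₂) ht])
    have hsub' : Ioo 0 T' ⊆ Ioo 0 (τ + T') := Ioo_subset_Ioo_right (by linarith)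
    have h2 := lintegral_mono_set (μ := volume)
      (f := fun t => (∫⁻ x in cube, ENNReal.ofReal (∑ i, |gl τ u₁ u₂ t x i| ^ (2 * Q n)))
        ^ (2 / (2 * Q n))) hsub'
    exact ne_top_of_le_ne_top (ENNReal.add_ne_top.2 ⟨hlq n, g.lq T' hT' n⟩) (h2.trans h1)
  · intro i ψ hψ hp t₀ ht₀
    refine ContinuousAt.continuousWithinAt ?_
    have hc1 := pair_cont isOpen_Ioo h hψ.continuous i
    rcases lt_trichotomy t₀ τ with ht | ht | ht
    · refine (hc1.continuousAt (Ioo_mem_nhds ht₀ (ht.trans hτ'))).congr ?_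
      filter_upwards [Iio_mem_nhds ht] with t h1
      rw [gl_le (le_of_lt h1)]
    · subst ht
      have e0 : (∫ x in cube, gl t₀ u₁ u₂ t₀ x i * ψ x) = ∫ x in cube, u₁ t₀ x i * ψ x := by
        rw [gl_le le_rfl]
      rw [continuousAt_iff_continuous_left'_right']
      constructor
      · show Tendsto _ _ (𝓝 (∫ x in cube, gl t₀ u₁ u₂ t₀ x i * ψ x))
        rw [e0]
        have h1 : Tendsto (fun t => ∫ x in cube, u₁ t x i * ψ x) (𝓝[<] t₀)
            (𝓝 (∫ x in cube, u₁ t₀ x i * ψ x)) :=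
          (hc1.continuousAt (Ioo_mem_nhds hτ hτ')).tendsto.mono_left nhdsWithin_le_nhds
        refine h1.congr' ?_
        filter_upwards [self_mem_nhdsWithin] with t h1
        rw [gl_le (le_of_lt h1)]
      · show Tendsto _ _ (𝓝 (∫ x in cube, gl t₀ u₁ u₂ t₀ x i * ψ x))
        rw [e0, ← pr_vf hsp i hψ.continuous]
        have h2 := tr_right t₀ 0
        rw [zero_add] at h2
        refine ((g.wa i ψ hψ hp).comp h2).congr' ?_
        filter_upwards [self_mem_nhdsWithin] with t h1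
        show (∫ x in cube, u₂ (t - t₀) x i * ψ x) = _
        rw [gl_gt h1]
    · have h1 : ContinuousAt (fun t => ∫ x in cube, u₂ (t - τ) x i * ψ x) t₀ := by
        have h2 : ContinuousAt (fun t => ∫ x in cube, u₂ t x i * ψ x) (t₀ - τ) :=
          (g.wc i ψ hψ hp).continuousAt (Ioi_mem_nhds (sub_pos.2 ht))
        exact ContinuousAt.comp (g := fun t => ∫ x in cube, u₂ t x i * ψ x)
          (f := fun t => t - τ) h2 (by fun_prop)
      refine h1.congr ?_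
      filter_upwards [Ioi_mem_nhds ht] with t h1
      rw [gl_gt h1]
  · intro i ψ hψ hp
    refine (hwa i ψ hψ hp).congr' ?_
    filter_upwards [Ioo_mem_nhdsGT hτ] with t h1
    rw [gl_le h1.2.le]
  · intro s hs δ hδ
    rcases lt_or_ge s τ with hs1 | hs1
    · have h1 : ∀ᶠ t in 𝓝[>] s, ∀ x i, |u₁ t x i| ≤ δ / Real.sqrt (t - s) := by
        rcases hs.eq_or_lt with rfl | hs0
        · obtain ⟨b, hb1, hb2⟩ := hh
          exact loc_zero hτ hb1 hb2 hδ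
        · exact ev_reg isOpen_Ioo h ⟨hs0, hs1.trans hτ'⟩ hδ
      filter_upwards [h1, nhdsWithin_le_nhds (Iio_mem_nhds hs1)] with t h2 h3 x i
      rw [gl_le (le_of_lt h3)]
      exact h2 x i
    · have h1 := g.loc (s - τ) (sub_nonneg.2 hs1) δ hδ
      have h2 := tr_right τ (s - τ)
      rw [sub_add_cancel] at h2
      filter_upwards [h2.eventually h1, self_mem_nhdsWithin] with t h3 h4 x i
      rw [gl_gt (lt_of_le_of_lt hs1 h4)]
      have h5 := h3 x i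
      have e : t - τ - (s - τ) = t - s := by ring
      rwa [e] at h5
  · obtain ⟨h₁, k1, k2, k3⟩ := hn
    obtain ⟨h₂, l1, l2, l3⟩ := g.near
    refine ⟨gl τ h₁ h₂, fun t => ?_, fun t ht x i => ?_, ?_⟩
    · rcases le_or_gt t τ with h0 | h0
      · rw [gl_le h0]
        exact k1 t
      · rw [gl_gt h0]
        exact l1 _
    · rcases le_or_gt t τ with h0 | h0
      · rw [gl_le h0, gl_le h0]
        exact k2 t ⟨ht.1, h0⟩ x i
      · rw [gl_gt h0, gl_gt h0]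
        have := l2 (t - τ) ⟨sub_pos.2 h0, by linarith [ht.2]⟩ x i
        simpa only [add_sub_cancel] using this
    · refine (lint_glue (τ := τ) (T := T)
        (H₁ := fun t => ENNReal.ofReal (Φ (h₁ t))) (H₂ := fun t => ENNReal.ofReal (Φ (h₂ t)))
        (fun t ht => by simp only [gl_le (a := h₁) (b := h₂) ht.2.le])
        (fun t ht => by simp only [gl_gt (a := h₁) (b := h₂) ht])).trans ?_
      exact add_le_add k3 l3
  · intro t ht x i
    have h1 : τ < t := by linarith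
    rw [gl_gt h1]
    exact g.late _ (by linarith) x i

/-- Constant flows. -/
theorem const_sol (ν T : ℝ) (m : V) : IsSol ν T (fun _ _ => m) (fun _ _ => 0) := by
  have h0 : ∀ (a : ℝ) (j : Fin 3), pd j (fun _ : V => a) = fun _ => 0 := fun a j => funext fun x => by
    unfold pd
    rw [fderiv_fun_const]
    rfl
  refine ⟨contDiffOn_const, contDiffOn_const, fun t _ j x => rfl, fun t _ j x => rfl,
    fun t _ x => ?_, fun t _ x i => ?_⟩
  · exact Finset.sum_eq_zero fun i _ => by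
      show pd i (fun _ : V => m i) x = 0
      rw [h0]
  · show deriv (fun _ : ℝ => m i) t + ∑ j, m j * pd j (fun _ : V => m i) x
      = ν * ∑ j, pd j (pd j (fun _ : V => m i)) x - pd i (fun _ : V => (0 : ℝ)) x
    simp only [h0, deriv_const, Finset.sum_const_zero, mul_zero, sub_zero, add_zero]

/-- **The base.** -/
theorem goodP_zero (hF : StmFinal) {ν : ℝ} (hν : 0 < ν) {m : V} {Q : ℕ → ℝ} (hQ : ∀ n, 1 ≤ Q n)
    {c : Cf} (hc : Dis c) (h0 : ∀ i, c 0 i = ((m i : ℝ) : ℂ))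
    (hR : ∃ R : Fin 3 → Fin 3 → V → ℝ, Str R ∧ IsDiv R c ∧
      ∀ n i j, IntegrableOn (fun x => |R i j x| ^ Q n) cube) (Φ : ℝ → ℝ) {ε : ℝ} (hε : 0 < ε)
    (w : ℝ → V → V) : ∃ (u : ℝ → V → V) (p : ℝ → V → ℝ), GoodP ν m Q c 0 Φ 0 ε w ∅ u p := by
  obtain ⟨R, hR1, hR2, hR3⟩ := hR
  obtain ⟨u, p, ho, hvw, hlq, hwa, -, ⟨b, hb1, hb2, -⟩, -, -, hl⟩ := (hF ν hν c hc Q hQ).2 R hR1
    hR2 hR3 (fun _ _ => m) (fun _ _ => 0) (fun T => const_sol ν T m) (fun i => by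
      rw [h0]
      simp) (fun _ => 0) zero_gauge ε hε
  have hs : SolOn ν (Ioi 0) u p := ⟨ho.smooth_u, ho.smooth_p, ho.per_u, ho.per_p, ho.divfree,
    ho.momentum⟩
  refine ⟨u, p, ⟨fun s hs => absurd hs (Finset.notMem_empty s), ?_, hvw, hlq,
    fun i ψ hψ _ => pair_cont isOpen_Ioi hs hψ.continuous i, hwa, ?_, ?_, ?_⟩⟩
  · rw [Finset.coe_empty, sdiff_empty]
    exact hs
  · intro s h1 δ hδ
    rcases h1.eq_or_lt with rfl | h2
    · exact loc_zero one_pos (fun t ht => hb1 t ht.1) hb2 hδ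
    · exact ev_reg isOpen_Ioi hs h2 hδ
  · exact ⟨fun _ => 0, fun _ => le_rfl, fun t ht => absurd (ht.1.trans ht.2) (lt_irrefl _),
      by simp⟩
  · intro t ht x i
    exact hl t (by linarith) x i

/-- The data of the restart. -/
theorem restartP {ν : ℝ} {I : Set ℝ} {u : ℝ → V → V} {p : ℝ → V → ℝ} (h : SolOn ν I u p) {t : ℝ}
    (ht : t ∈ I) {m : V} (hm : ∀ i, ∫ x in cube, u t x i = m i) {Q : ℕ → ℝ} (hQ : ∀ n, 1 ≤ Q n) :
    Dis (vf (u t)) ∧ (∀ i, vf (u t) 0 i = ((m i : ℝ) : ℂ)) ∧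
      ∃ R : Fin 3 → Fin 3 → V → ℝ, Str R ∧ IsDiv R (vf (u t)) ∧
        ∀ n i j, IntegrableOn (fun x => |R i j x| ^ Q n) cube := by
  have hs := h308.GS.vf_summable (u := u t) fun i => sp_o h ht i
  refine ⟨⟨herm_vf' (u t), dv_o h ht, ⟨∑' k, ‖vf (u t) k‖, 0, fun k => ?_⟩⟩, fun i => ?_, ?_⟩
  · rw [pow_zero, mul_one]
    exact hs.le_tsum k fun _ _ => norm_nonneg _
  · show fr (fun x => u t x i) 0 = _
    rw [h32.GD.fr_zero_eq, hm i]
  · set c : Cf := fun k => if k = 0 then 0 else vf (u t) k with hc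
    have hcs : Summable fun k => ‖c k‖ := by
      refine Summable.of_nonneg_of_le (fun k => norm_nonneg _) (fun k => ?_) hs
      rw [hc]
      by_cases hk : k = 0
      · simp [hk]
      · simp [hk]
    have hch : Herm c := by
      intro k i
      by_cases hk : k = 0
      · simp [hc, hk]
      · simp only [hc, hk, neg_eq_zero, if_false]
        exact herm_vf' (u t) k i
    have hcd : Dv c := by
      intro k
      by_cases hk : k = 0
      · simp [hc, hk, kd]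
      · simp only [hc, hk, if_false]
        exact dv_o h ht k
    obtain ⟨R, h1, h2, h3⟩ := exists_R hch hcd (by simp [hc]) hcs
    refine ⟨R, h1, fun k hk => ?_, fun n => h3 (Q n) (by linarith [hQ n])⟩
    rw [← h2 k hk]
    simp [hc, hk]

/-- The bound for one interval. -/
theorem one_orl {Φ : ℝ → ℝ} (hΦ : Orl Φ) {τ ε₀ δ : ℝ} (hτ : 0 < τ) (hε₀ : 0 < ε₀)
    (hδ : 0 < δ) {h : ℝ → ℝ} (h0 : ∀ t, 0 ≤ h t)
    (hh : ∫⁻ t in Ioc 0 τ, ENNReal.ofReal (Φ (2 * h t)) ≤ ENNReal.ofReal δ) :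
    ∫⁻ t in Ioo 0 τ, ENNReal.ofReal (Φ (ε₀ + h t))
      ≤ ENNReal.ofReal (1 / 2 * (τ * Φ (2 * ε₀)) + 1 / 2 * δ) := by
  have hΦ0 : 0 ≤ Φ (2 * ε₀) := hΦ.nonneg _ (by positivity)
  calc ∫⁻ t in Ioo 0 τ, ENNReal.ofReal (Φ (ε₀ + h t))
      ≤ ∫⁻ t in Ioo 0 τ, (ENNReal.ofReal (1 / 2 * Φ (2 * ε₀))
          + ENNReal.ofReal (1 / 2) * ENNReal.ofReal (Φ (2 * h t))) := by
        refine lintegral_mono fun t => ?_
        have h1 := hΦ.add_le hε₀.le (h0 t)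
        refine (ENNReal.ofReal_le_ofReal h1).trans ?_
        rw [ENNReal.ofReal_add (by positivity)
          (mul_nonneg (by norm_num) (hΦ.nonneg _ (mul_nonneg zero_le_two (h0 t)))),
          ENNReal.ofReal_mul (by norm_num : (0 : ℝ) ≤ 1 / 2) (q := Φ (2 * h t))]
    _ = ENNReal.ofReal (1 / 2 * Φ (2 * ε₀)) * ENNReal.ofReal τ
          + ENNReal.ofReal (1 / 2) * ∫⁻ t in Ioo 0 τ, ENNReal.ofReal (Φ (2 * h t)) := by
        rw [lintegral_add_left measurable_const, lintegral_const, Measure.restrict_apply_univ,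
          Real.volume_Ioo, sub_zero, lintegral_const_mul' _ _ ENNReal.ofReal_ne_top]
    _ ≤ ENNReal.ofReal (1 / 2 * Φ (2 * ε₀)) * ENNReal.ofReal τ
          + ENNReal.ofReal (1 / 2) * ENNReal.ofReal δ := by
        refine add_le_add le_rfl (mul_le_mul' le_rfl ((lintegral_mono_set ?_).trans hh))
        exact Ioo_subset_Ioc_self
    _ = _ := by
        rw [← ENNReal.ofReal_mul (by positivity), ← ENNReal.ofReal_mul (by norm_num),
          ← ENNReal.ofReal_add (by positivity) (by positivity)]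
        congr 1
        ring

/-- **The h-principle**, from the local form. -/
theorem stmHPP_of (hF : StmFinal) (hLoc : StmLocP) : StmHPP := by
  intro ν hν T hT m w hw c hc hc0 Q hQ hR Φ hΦ ε hε
  have hΦ1 : 0 ≤ Φ 1 := hΦ.nonneg 1 zero_le_one
  -- the parameters
  set ε₀ : ℝ := min (1 / 2) (ε / (2 * T * (Φ 1 + 1))) with hε₀d
  have hε₀ : 0 < ε₀ := lt_min (by norm_num) (by positivity)
  have hΦε : T * Φ (2 * ε₀) ≤ ε := by
    have h1 : 2 * ε₀ ≤ 1 := by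
      have := min_le_left (1 / 2 : ℝ) (ε / (2 * T * (Φ 1 + 1)))
      rw [← hε₀d] at this
      linarith
    have h2 : Φ (2 * ε₀) ≤ 2 * ε₀ * Φ 1 := by
      have := hΦ.scale (l := 2 * ε₀) (x := 1) (by positivity) h1 zero_le_one
      rwa [mul_one] at this
    have h3 : ε₀ ≤ ε / (2 * T * (Φ 1 + 1)) := min_le_right _ _
    rw [le_div_iff₀ (by positivity)] at h3
    calc T * Φ (2 * ε₀) ≤ T * (2 * ε₀ * Φ 1) := mul_le_mul_of_nonneg_left h2 hT.le
      _ ≤ ε₀ * (2 * T * (Φ 1 + 1)) := by nlinarith [mul_pos hT hε₀]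
      _ ≤ ε := h3
  obtain ⟨τ₀, hτ₀, hLoc⟩ := hLoc ν hν m w hw T ε₀ hT hε₀
  obtain ⟨N, hN⟩ := exists_nat_gt (T / τ₀)
  have hN0 : (0 : ℝ) < N := (div_pos hT hτ₀).trans hN
  set τ : ℝ := T / N with hτd
  have hτ : 0 < τ := by positivity
  have hττ₀ : τ < τ₀ := by
    rw [hτd, div_lt_iff₀ hN0]
    rw [div_lt_iff₀ hτ₀] at hN
    linarith
  have hNτ : (N : ℝ) * τ = T := by
    rw [hτd]
    field_simp
  set δ : ℝ := ε / N with hδd
  have hδ : 0 < δ := by positivity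
  set κ : ℝ≥0∞ := ENNReal.ofReal (1 / 2 * (τ * Φ (2 * ε₀)) + 1 / 2 * δ) with hκ
  -- the induction
  have ind : ∀ n : ℕ, ∀ s : ℝ, 0 ≤ s → s + n * τ = T → ∀ c : Cf, Dis c →
      (∀ i, c 0 i = ((m i : ℝ) : ℂ)) →
      (∃ R : Fin 3 → Fin 3 → V → ℝ, Str R ∧ IsDiv R c ∧
        ∀ n i j, IntegrableOn (fun x => |R i j x| ^ Q n) cube) →
      ∃ (F : Finset ℝ) (u : ℝ → V → V) (p : ℝ → V → ℝ),
        GoodP ν m Q c (n * τ) Φ (n * κ) ε (fun t => w (s + t)) F u p := by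
    intro n
    induction n with
    | zero =>
      intro s _ _ c hc h0 hR
      obtain ⟨u, p, h⟩ := goodP_zero hF hν hQ hc h0 hR Φ hε (fun t => w (s + t))
      refine ⟨∅, u, p, ?_⟩
      simpa using h
    | succ n ih =>
      intro s hs hsT c hc h0 hR
      obtain ⟨R, hR1, hR2, hR3⟩ := hR
      have hnτ : 0 ≤ (n : ℝ) * τ := by positivity
      have hsT' : s ≤ T := by
        have h1 : 0 ≤ ((n + 1 : ℕ) : ℝ) * τ := by positivity
        linarith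
      obtain ⟨τ', u₁, p₁, hτ', hsol, hL, hlq, hwa, hmean, hh, h, hh0, hnear, hint⟩ :=
        hLoc τ hτ hττ₀ s ⟨hs, hsT'⟩ c hc.herm hc.dv h0 R hR1 hR2 Q hQ hR3
          (fun x => Φ (2 * x)) (hΦ.dil two_pos) δ hδ
      obtain ⟨k1, k2, k3⟩ := restartP hsol (t := τ) ⟨hτ, hτ'⟩ (hmean τ ⟨hτ, le_rfl⟩) hQ
      obtain ⟨F, u₂, p₂, g⟩ := ih (s + τ) (by linarith) (by
        rw [← hsT]
        push_cast
        ring) (vf (u₁ τ)) k1 k2 k3
      refine ⟨sing τ F, gl τ u₁ u₂, gl τ p₁ p₂, ?_⟩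
      have e1 : ((n + 1 : ℕ) : ℝ) * τ = τ + n * τ := by
        push_cast
        ring
      have e2 : ((n + 1 : ℕ) : ℝ≥0∞) * κ = κ + n * κ := by
        push_cast
        rw [add_mul, one_mul, add_comm]
      rw [e1, e2]
      refine goodP_succ hν hτ hτ' hnτ hε hsol hL hlq hwa hh
        ⟨fun t => ε₀ + h t, fun t => by linarith [hh0 t], hnear,
          one_orl hΦ hτ hε₀ hδ hh0 hint⟩ ?_
      simpa only [add_assoc] using g
  obtain ⟨F, u, p, g⟩ := ind N 0 le_rfl (by rw [zero_add, hNτ]) c hc hc0 hR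
  rw [hNτ] at g
  refine ⟨F, u, p, g.mem, g.sol, g.vw, g.lq, fun i ψ hψ hp => ⟨g.wc i ψ hψ hp, g.wa i ψ hψ hp⟩,
    g.loc, ?_, g.late⟩
  obtain ⟨h, h1, h2, h3⟩ := g.near
  simp only [zero_add] at h2
  refine ⟨h, h1, h2, h3.trans ?_⟩
  rw [hκ, ← ENNReal.ofReal_natCast, ← ENNReal.ofReal_mul hN0.le]
  refine ENNReal.ofReal_le_ofReal ?_
  have e : (N : ℝ) * (1 / 2 * (τ * Φ (2 * ε₀)) + 1 / 2 * δ)
      = 1 / 2 * (T * Φ (2 * ε₀)) + 1 / 2 * ε := by
    rw [← hNτ, hδd]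
    field_simp
  rw [e]
  linarith

end Pool.Agent.Run7.h219.HP
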