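import Pool.Agent.Run7.h969.HP.DefsD
import Pool.Agent.Run7.h782.HP.EndReg

/-!
Project HP, piece IniReg: the initial value of a solution which is smooth near the time `0`.
-/

set_option autoImplicit false

open MeasureTheory Set Filter Topology
open scoped ContDiff ENNReal ComplexConjugate

namespace Pool.Agent.Run7.h219.HP

open H459R3.NS Pool.Agent.Run7 Pool.Agent.Run7.h782 Pool.Agent.Run7.h782.GD Pool.Agent.Run7.h782.GS
open Pool.Agent.Run7.h782.WS Pool.Agent.Run7.h782.WQ Pool.Agent.Run7.h744.WS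
open Pool.Agent.Run7.h969.WS Pool.Agent.Run7.h782.OS Pool.Agent.Run7.h969.HP
open Pool.Agent.Run7.h219.OS Run7.h475.WS Pool.Agent.Run7.h782.HP

/-- **Piece IniReg.** -/
theorem iniReg : StmIniReg := by
  intro ν hν T hT c₁ hc₁ U hU a b q h0 hsol
  set d : ℝ := min (T / 2) (b / 2) with hd
  have hd0 : 0 < d := lt_min (by linarith) (by linarith [h0.2])
  have hdT : d < T := lt_of_le_of_lt (min_le_left _ _) (by linarith)
  have hdb : d < b := lt_of_le_of_lt (min_le_right _ _) (by linarith [h0.2])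
  have hsl : SolOn ν (Ioo 0 b) U q := mono_o hsol (Ioo_subset_Ioo_left h0.1.le)
  refine dis_ext hc₁.herm hc₁.dv (fun k _ => h32.GD.fr_neg _ k) (dv_o hsol h0) fun φ hφ hp hdv => ?_
  have hL : ∀ i, IntegrableOn (fun z : ℝ × V => U z.1 z.2 i ^ 2) (Ioc 0 d ×ˢ cube) := by
    intro i
    have h1 : ContinuousOn (fun z : ℝ × V => U z.1 z.2 i ^ 2) (Icc 0 d ×ˢ cube) := by
      refine ((smooth_o hsol i).continuousOn.pow 2).mono (prod_mono ?_ (subset_univ _))
      intro t ht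
      exact ⟨lt_of_lt_of_le h0.1 ht.1, lt_of_le_of_lt ht.2 hdb⟩
    exact (h1.integrableOn_compact (isCompact_Icc.prod cube_compact)).mono_set
      (prod_mono Ioc_subset_Icc_self le_rfl)
  have hc : ∀ (i : Fin 3) (ψ : V → ℝ), ContDiff ℝ ∞ ψ → Per ψ →
      Tendsto (fun t => ∫ x in cube, U t x i * ψ x) (𝓝[>] 0) (𝓝 (pr (vf (U 0)) i ψ)) := by
    intro i ψ hψ hpψ
    rw [pr_vf (fun i => sp_o hsol h0 i) i hψ.continuous]
    have h1 : ContinuousAt (fun s => ∫ x in cube, U s x i * ψ x) 0 :=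
      (pair_cont isOpen_Ioo hsol hψ.continuous i).continuousAt (Ioo_mem_nhds h0.1 h0.2)
    exact h1.tendsto.mono_left nhdsWithin_le_nhds
  set χ : ℝ → ℝ := fun t => Real.smoothTransition (1 - 2 * t / d) with hχd
  have hχ : ContDiff ℝ ∞ χ :=
    Real.smoothTransition.contDiff.comp
      (contDiff_const.sub ((contDiff_const.mul contDiff_id).div_const _))
  have hχz : ∀ t, d / 2 ≤ t → χ t = 0 := fun t ht => by
    refine Real.smoothTransition.zero_of_nonpos ?_
    have : 1 ≤ 2 * t / d := by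
      rw [le_div_iff₀ hd0]
      linarith
    linarith
  have hχ1 : χ 0 = 1 := by
    rw [hχd]
    simp only [mul_zero, zero_div, sub_zero]
    exact Real.smoothTransition.one_of_one_le le_rfl
  have h1 := hU.weak χ φ hχ ⟨d / 2, by linarith, hχz⟩ hφ hp hdv
  have h2 := stmVWL ν d b hν hd0 hdb U q hsl hL (vf (U 0)) hc χ φ hχ hφ hp hdv
  rw [hχz d (by linarith), zero_mul, sub_zero] at h2
  have h3 : ∫ z in Ioo 0 T ×ˢ cube, wk ν U χ φ z = ∫ z in Ioo 0 d ×ˢ cube, wk ν U χ φ z := by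
    refine setIntegral_eq_of_subset_of_forall_sdiff_eq_zero (boxm 0 T) ?_ ?_
    · exact prod_mono (Ioo_subset_Ioo_right hdT.le) le_rfl
    · rintro z ⟨⟨hz1, hz2⟩, hz3⟩
      have hzd : d ≤ z.1 := by
        by_contra hcon
        exact hz3 ⟨⟨hz1.1, not_le.1 hcon⟩, hz2⟩
      have e : χ =ᶠ[𝓝 z.1] fun _ => 0 := by
        filter_upwards [lt_mem_nhds (show d / 2 < z.1 by linarith)] with t ht
        exact hχz t ht.le
      rw [wk, hχz _ (by linarith), e.deriv_eq, deriv_const]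
      ring
  have h1' : χ 0 * (∑ i, pr c₁ i (fun x => φ x i)) + ∫ z in Ioo 0 T ×ˢ cube, wk ν U χ φ z = 0 := h1
  have h2' : χ 0 * (∑ i, pr (vf (U 0)) i (fun x => φ x i))
      + ∫ z in Ioo 0 d ×ˢ cube, wk ν U χ φ z = 0 := h2
  rw [h3] at h1'
  rw [hχ1, one_mul] at h1' h2'
  linarith

end Pool.Agent.Run7.h219.HP
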