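import Pool.Agent.Run7.h969.HP.Defs
import Pool.Agent.Run7.h219.OS.C1

/-!
Solutions on open sets of times: slices, and the equation for the pairing (for piece VWL).
-/

set_option autoImplicit false

open MeasureTheory Set Filter Topology
open scoped ContDiff ENNReal ComplexConjugate

namespace Pool.Agent.Run7.h219.HP

open H459R3.NS Pool.Agent.Run7.h782 Pool.Agent.Run7.h782.GD Pool.Agent.Run7.h782.GS
open Pool.Agent.Run7.h782.WS Pool.Agent.Run7.h782.WQ Pool.Agent.Run7.h744.WS
open Pool.Agent.Run7.h969.WS Pool.Agent.Run7.h969.HP Pool.Agent.Run7.h219.OS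
open Pool.Agent.Run7.h782.OS Run7.h475.WS

section

variable {ν : ℝ} {I : Set ℝ} {u : ℝ → V → V} {p : ℝ → V → ℝ} {ψ : V → V}

/-- The slices of smooth functions. -/
theorem slice_o {E : Type*} [NormedAddCommGroup E] [NormedSpace ℝ E] {f : ℝ → V → E}
    (hf : ContDiffOn ℝ ∞ (fun z : ℝ × V => f z.1 z.2) (I ×ˢ univ)) {t : ℝ} (ht : t ∈ I) :
    ContDiff ℝ ∞ (f t) := by
  rw [← contDiffOn_univ]
  exact hf.comp (f := fun x : V => ((t, x) : ℝ × V)) (s := univ)
    (contDiff_const.prodMk contDiff_id).contDiffOn (fun x _ => ⟨ht, mem_univ _⟩)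

theorem smooth_o (h : SolOn ν I u p) (i : Fin 3) :
    ContDiffOn ℝ ∞ (fun z : ℝ × V => u z.1 z.2 i) (I ×ˢ univ) :=
  contDiffOn_pi.1 h.smooth_u i

theorem sp_o (h : SolOn ν I u p) {t : ℝ} (ht : t ∈ I) (i : Fin 3) : SP (fun y => u t y i) :=
  ⟨slice_o (f := fun s y => u s y i) (smooth_o h i) ht, fun j x => by
    show u t (x + Pi.single j 1) i = u t x i
    rw [h.per_u t ht j x]⟩

theorem spp_o (h : SolOn ν I u p) {t : ℝ} (ht : t ∈ I) : SP (p t) :=
  ⟨slice_o h.smooth_p ht, h.per_p t ht⟩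

theorem mono_o {J : Set ℝ} (h : SolOn ν I u p) (hJ : J ⊆ I) : SolOn ν J u p :=
  ⟨h.smooth_u.mono (prod_mono hJ le_rfl), h.smooth_p.mono (prod_mono hJ le_rfl),
    fun t ht => h.per_u t (hJ ht), fun t ht => h.per_p t (hJ ht),
    fun t ht => h.divfree t (hJ ht), fun t ht => h.momentum t (hJ ht)⟩

/-- The spatial identity at one time. -/
theorem at_time_o (h : SolOn ν I u p) (hψ : ContDiff ℝ ∞ ψ) (hp : Per ψ)
    (hd : ∀ x, ∑ i, pd i (fun y => ψ y i) x = 0) {t : ℝ} (ht : t ∈ I) :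
    ∫ x in cube, hh u ψ (t, x) = ∫ x in cube, gg ν u ψ (t, x) := by
  have h1 := space ν (fun i => sp_o h ht i) (fun i => sp_φ hψ hp i) (spp_o h ht)
    (h.divfree t ht) hd
  refine Eq.trans ?_ h1
  congr 1
  funext x
  unfold hh
  refine Finset.sum_congr rfl fun i _ => ?_
  have hm := h.momentum t ht x i
  have e : deriv (fun s => u s x i) t = ν * ∑ j, pd j (pd j (fun y => u t y i)) x - pd i (p t) x
      - ∑ j, u t x j * pd j (fun y => u t y i) x := by linarith
  show deriv (fun s => u s x i) t * ψ x i = _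
  rw [e]

/-- The integrals over the cell are continuous in time. -/
theorem slice_cont (hI : IsOpen I) {f : ℝ × V → ℝ} (hf : ContinuousOn f (I ×ˢ univ)) :
    ContinuousOn (fun s => ∫ x in cube, f (s, x)) I := by
  rw [continuousOn_iff_continuous_domRestrict]
  have : LocallyCompactSpace I := hI.locallyCompactSpace
  have h : Continuous (Function.uncurry fun (s : I) (x : V) => f ((s : ℝ), x)) := by
    refine hf.comp_continuous (f := fun z : I × V => (((z.1 : ℝ), z.2) : ℝ × V))
      (by fun_prop) fun z => ⟨z.1.2, mem_univ _⟩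
  exact continuous_parametric_integral_of_continuous h cube_compact

theorem pair_cont (hI : IsOpen I) (h : SolOn ν I u p) {φ : V → ℝ} (hφ : Continuous φ)
    (i : Fin 3) : ContinuousOn (fun s => ∫ x in cube, u s x i * φ x) I :=
  slice_cont hI (f := fun z : ℝ × V => u z.1 z.2 i * φ z.2)
    ((smooth_o h i).continuousOn.mul (hφ.comp continuous_snd).continuousOn)

/-- The equation for the pairing with a divergence free field. -/
theorem pair_deriv_o {T : ℝ} (h : SolOn ν (Ioo 0 T) u p) (hψ : ContDiff ℝ ∞ ψ) (hp : Per ψ)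
    (hd : ∀ x, ∑ i, pd i (fun y => ψ y i) x = 0) {t : ℝ} (ht : t ∈ Ioo 0 T) :
    HasDerivAt (fun s => ∫ x in cube, ∑ i, u s x i * ψ x i) (∫ x in cube, gg ν u ψ (t, x)) t := by
  have hF : ContDiffOn ℝ ∞ (fun z : ℝ × V => ∑ i, u z.1 z.2 i * ψ z.2 i) (Ioo 0 T ×ˢ univ) :=
    ContDiffOn.sum fun i _ => (smooth_o h i).mul
      (((contDiff_pi.1 hψ i).comp contDiff_snd).contDiffOn)
  have h1 := hasDerivAt_int (F := fun s x => ∑ i, u s x i * ψ x i)
    (hF.of_le (by norm_cast)) ht
  rw [← at_time_o h hψ hp hd ht]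
  refine h1.congr_deriv ?_
  congr 1
  funext x
  unfold hh
  have h2 := HasDerivAt.fun_sum (u := Finset.univ) fun (i : Fin 3) _ =>
    (hasDerivAt_slice (F := fun s y => u s y i)
      ((smooth_o h i).of_le (by norm_cast)) ht x).mul_const (ψ x i)
  rw [h2.deriv]
  refine Finset.sum_congr rfl fun i _ => ?_
  rw [(hasDerivAt_slice (F := fun s y => u s y i)
      ((smooth_o h i).of_le (by norm_cast)) ht x).deriv]

end

/-- **Piece VWL.** -/
theorem stmVWL : StmVWL := by
  intro ν T T' hν hT hT' v q h hL c hc χ φ hχ hφ hp hd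
  have hTm : T ∈ Ioo 0 T' := ⟨hT, hT'⟩
  have hsub : Ioo 0 T ⊆ Ioo 0 T' := Ioo_subset_Ioo_right hT'.le
  have hm : ∀ i, AEStronglyMeasurable (fun z : ℝ × V => v z.1 z.2 i)
      (volume.restrict (Ioo 0 T ×ˢ cube)) := fun i =>
    ((smooth_o h i).continuousOn.mono (prod_mono hsub (subset_univ _))).aestronglyMeasurable
      (boxm 0 T)
  have hL' : ∀ i, IntegrableOn (fun z : ℝ × V => v z.1 z.2 i ^ 2) (Ioo 0 T ×ˢ cube) := fun i =>
    (hL i).mono_set (prod_mono Ioo_subset_Ioc_self le_rfl)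
  have hχc : Continuous χ := hχ.continuous
  have hwk := wk_int (ν := ν) hm hL' hχ hφ hp
  set G : ℝ → ℝ := fun s => ∫ x in cube, ∑ i, v s x i * φ x i with hG
  set g : ℝ → ℝ := fun s => ∫ x in cube, gg ν v φ (s, x) with hg
  have hslice : ∀ (f : ℝ × V → ℝ), IntegrableOn f (Ioo 0 T ×ˢ cube) →
      IntegrableOn (fun s => ∫ x in cube, f (s, x)) (Ioo 0 T) := by
    intro f hf
    rw [IntegrableOn, Measure.volume_eq_prod, ← Measure.prod_restrict] at hf
    exact hf.integral_prod_left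
  have hder : ∀ t ∈ Ioo (0 : ℝ) T, HasDerivAt (fun s => χ s * G s)
      (deriv χ t * G t + χ t * g t) t := fun t ht =>
    ((hχ.differentiable (by norm_num)).differentiableAt.hasDerivAt).mul
      (pair_deriv_o h hφ hp hd (hsub ht))
  -- the integrand
  have e : ∀ t ∈ Ioo (0 : ℝ) T, ∫ x in cube, wk ν v χ φ (t, x)
      = deriv χ t * G t + χ t * g t := by
    intro t ht
    have ht' := hsub ht
    show ∫ x in cube, (deriv χ t * (∑ i, v t x i * φ x i) + χ t * gg ν v φ (t, x)) = _
    have j1 : IntegrableOn (fun x => ∑ i, v t x i * φ x i) cube :=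
      (SP.sum (s := Finset.univ) fun i _ => (sp_o h ht' i).mul (sp_φ hφ hp i)).int
    have j2 : IntegrableOn (fun x => gg ν v φ (t, x)) cube := by
      have i4 : IntegrableOn (fun x => ∑ i, ∑ j, v t x i * v t x j * pd i (fun y => φ y j) x) cube :=
        (SP.sum (s := Finset.univ) fun i _ => SP.sum (s := Finset.univ) fun j _ =>
          ((sp_o h ht' i).mul (sp_o h ht' j)).mul ((sp_φ hφ hp j).pd i)).int
      have i5 : IntegrableOn (fun x => ν * ∑ i, v t x i * ∑ j, pd j (pd j (fun y => φ y i)) x) cube :=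
        (SP.sum (s := Finset.univ) fun i _ => (sp_o h ht' i).mul
          (SP.sum (s := Finset.univ) fun j _ => ((sp_φ hφ hp i).pd j).pd j)).int.const_mul ν
      exact i4.add i5
    rw [integral_add (j1.const_mul _) (j2.const_mul _), integral_const_mul, integral_const_mul]
  have e2 : ∫ z in Ioo 0 T ×ˢ cube, wk ν v χ φ z
      = ∫ t in (0 : ℝ)..T, (deriv χ t * G t + χ t * g t) := by
    rw [intervalIntegral.integral_of_le hT.le, integral_Ioc_eq_integral_Ioo]
    rw [Measure.volume_eq_prod] at hwk ⊢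
    rw [setIntegral_prod _ hwk]
    exact setIntegral_congr_fun measurableSet_Ioo e
  have hint : IntervalIntegrable (fun t => deriv χ t * G t + χ t * g t) volume 0 T := by
    rw [intervalIntegrable_iff_integrableOn_Ioo_of_le hT.le]
    exact (hslice _ hwk).congr_fun e measurableSet_Ioo
  -- the limits
  have hsplit : ∀ t ∈ Ioo (0 : ℝ) T', G t = ∑ i, ∫ x in cube, v t x i * φ x i := by
    intro t ht
    rw [hG]
    exact integral_finsetSum _ fun i _ => ((sp_o h ht i).mul (sp_φ hφ hp i)).int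
  have ha : Tendsto (fun s => χ s * G s) (𝓝[>] 0)
      (𝓝 (χ 0 * ∑ i, pr c i (fun x => φ x i))) := by
    refine ((hχc.tendsto 0).mono_left nhdsWithin_le_nhds).mul ?_
    have h1 : Tendsto (fun t => ∑ i, ∫ x in cube, v t x i * φ x i) (𝓝[>] 0)
        (𝓝 (∑ i, pr c i (fun x => φ x i))) :=
      tendsto_finsetSum _ fun i _ => hc i (fun x => φ x i) (contDiff_pi.1 hφ i)
        (sp_φ hφ hp i).per
    refine h1.congr' ?_
    filter_upwards [Ioo_mem_nhdsGT (hT.trans hT')] with t ht
    exact (hsplit t ht).symm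
  have hb : Tendsto (fun s => χ s * G s) (𝓝[<] T)
      (𝓝 (χ T * ∑ i, ∫ x in cube, v T x i * φ x i)) := by
    refine ((hχc.tendsto T).mono_left nhdsWithin_le_nhds).mul ?_
    have h1 : Tendsto (fun t => ∑ i, ∫ x in cube, v t x i * φ x i) (𝓝 T)
        (𝓝 (∑ i, ∫ x in cube, v T x i * φ x i)) :=
      tendsto_finsetSum _ fun i _ =>
        ((pair_cont isOpen_Ioo h (contDiff_pi.1 hφ i).continuous i).continuousAt
          (Ioo_mem_nhds hTm.1 hTm.2)).tendsto
    refine (h1.mono_left nhdsWithin_le_nhds).congr' ?_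
    filter_upwards [Ioo_mem_nhdsLT hT] with t ht
    exact (hsplit t (hsub ht)).symm
  have hftc := intervalIntegral.integral_eq_sub_of_hasDerivAt_of_tendsto hT hder hint ha hb
  show χ 0 * (∑ i, pr c i (fun x => φ x i)) - χ T * (∑ i, ∫ x in cube, v T x i * φ x i)
    + ∫ z in Ioo 0 T ×ˢ cube, wk ν v χ φ z = 0
  rw [e2, hftc]
  ring

end Pool.Agent.Run7.h219.HP
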